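import Mathlib

/-!
# Graded Fock spaces

A family `F k` of complex inner product spaces with creation operators `c α : F k → F (k+1)` and
annihilation operators `d α : F (k+1) → F k` satisfying the canonical anticommutation relations.
The indices are the elements `⟨t, i, s, ε⟩` of `Σ t, I t × S t × Bool`: for each `t` there is a
symplectic space with basis `x_i, y_i` (`i : I t`; `ε = true` for `x`, `ε = false` for `y`) and a
multiplicity space with basis `S t`.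
-/

set_option autoImplicit false

namespace Pool.Agent.GHCFull

open scoped InnerProductSpace

/-- A graded Fock space. -/
structure Fock (F : ℕ → Type*) [∀ k, NormedAddCommGroup (F k)] [∀ k, InnerProductSpace ℂ (F k)]
    (K : Type*) [DecidableEq K] where
  c : K → ∀ k, F k →ₗ[ℂ] F (k + 1)
  d : K → ∀ k, F (k + 1) →ₗ[ℂ] F k
  adj : ∀ α k (x : F k) (y : F (k + 1)), ⟪c α k x, y⟫_ℂ = ⟪x, d α k y⟫_ℂ
  car₀ : ∀ α β (x : F 0), d α 0 (c β 0 x) = if α = β then x else 0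
  car : ∀ α β k (x : F (k + 1)),
    d α (k + 1) (c β (k + 1) x) = (if α = β then x else 0) - c β k (d α k x)
  dd : ∀ α β k (x : F (k + 2)), d α k (d β (k + 1) x) = -d β k (d α (k + 1) x)

/-- The index type. -/
abbrev Idx {T : Type} (I S : T → Type) : Type := Σ t : T, I t × S t × Bool

namespace Fock

variable {F : ℕ → Type*} [∀ k, NormedAddCommGroup (F k)] [∀ k, InnerProductSpace ℂ (F k)]

section General

variable {K : Type*} [DecidableEq K] (Φ : Fock F K)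

/-- The operator `c α ∘ d β`. -/
def hop (α β : K) : ∀ k, F k →ₗ[ℂ] F k
  | 0 => 0
  | k + 1 => Φ.c α k ∘ₗ Φ.d β k

end General

variable {T : Type} [Fintype T] [DecidableEq T] {I S : T → Type} [∀ t, Fintype (I t)]
  [∀ t, DecidableEq (I t)] [∀ t, Fintype (S t)] [∀ t, DecidableEq (S t)] (Φ : Fock F (Idx I S))

/-- The raising operators. -/
def X (t : T) (i j : I t) (k : ℕ) : F k →ₗ[ℂ] F k :=
  ∑ s : S t, (Φ.hop ⟨t, i, s, true⟩ ⟨t, j, s, false⟩ k + Φ.hop ⟨t, j, s, true⟩ ⟨t, i, s, false⟩ k)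

/-- The lowering operators. -/
def Y (t : T) (i j : I t) (k : ℕ) : F k →ₗ[ℂ] F k :=
  ∑ s : S t, (Φ.hop ⟨t, j, s, false⟩ ⟨t, i, s, true⟩ k + Φ.hop ⟨t, i, s, false⟩ ⟨t, j, s, true⟩ k)

/-- The operator counting the indices with `ε = false`. -/
def N (k : ℕ) : F k →ₗ[ℂ] F k :=
  ∑ t : T, ∑ i : I t, ∑ s : S t, Φ.hop ⟨t, i, s, false⟩ ⟨t, i, s, false⟩ k

/-- The products with the invariant two forms. -/
def L (t : T) (s s' : S t) (k : ℕ) : F k →ₗ[ℂ] F (k + 2) :=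
  ∑ i : I t, (Φ.c ⟨t, i, s, true⟩ (k + 1) ∘ₗ Φ.c ⟨t, i, s', false⟩ k +
    Φ.c ⟨t, i, s', true⟩ (k + 1) ∘ₗ Φ.c ⟨t, i, s, false⟩ k)

/-- The contractions with the invariant bivectors. -/
def Lam (t : T) (s s' : S t) (k : ℕ) : F (k + 2) →ₗ[ℂ] F k :=
  ∑ i : I t, (Φ.d ⟨t, i, s', false⟩ k ∘ₗ Φ.d ⟨t, i, s, true⟩ (k + 1) +
    Φ.d ⟨t, i, s, false⟩ k ∘ₗ Φ.d ⟨t, i, s', true⟩ (k + 1))

/-- The powers of the ideal generated by the invariant two forms. -/
def Ifil : ℕ → (k : ℕ) → Submodule ℂ (F k)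
  | 0, _ => ⊤
  | _ + 1, 0 => ⊥
  | _ + 1, 1 => ⊥
  | j + 1, k + 2 => ⨆ t : T, ⨆ s : S t, ⨆ s' : S t, (Ifil j k).map (Φ.L t s s' k)

/-- A subspace stable under the raising and lowering operators and the counting operator. -/
structure Stab {k : ℕ} (W : Submodule ℂ (F k)) : Prop where
  X : ∀ t i j, ∀ w ∈ W, Φ.X t i j k w ∈ W
  Y : ∀ t i j, ∀ w ∈ W, Φ.Y t i j k w ∈ W
  N : ∀ w ∈ W, Φ.N k w ∈ W

/-- All eigenvalues of the counting operator on `W` are in the list `l`. -/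
def Eig {k : ℕ} (W : Submodule ℂ (F k)) (l : List ℕ) : Prop :=
  ∀ w ∈ W, ((l.map fun β : ℕ => (Φ.N k - (β : ℂ) • 1 : Module.End ℂ (F k))).prod :
    Module.End ℂ (F k)) w = 0

end Fock

end Pool.Agent.GHCFull
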