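import Pool.Agent.GHCFull.Inner1
import Pool.Agent.GHCFull.Fock

/-!
# The alternating forms as a Fock space
-/

set_option autoImplicit false

universe u

namespace Pool.Agent.GHCFull

open scoped InnerProductSpace ComplexConjugate

variable {H : Type u} [AddCommGroup H] [Module ℂ H]

section Core

variable {K : Type*} [Fintype K] (b : Module.Basis K ℂ H)

/-- The inner product. -/
@[reducible] noncomputable def core (k : ℕ) : InnerProductSpace.Core ℂ (AForm H k) where
  inner := hf b k
  conj_inner_symm ω η := by
    simp [hf, mul_comm]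
  re_inner_nonneg ω := hf_pos b k ω
  add_left ω ω' η := by
    simp only [hf, AlternatingMap.add_apply, map_add, add_mul, Finset.sum_add_distrib, mul_add]
  smul_left ω η r := by
    simp only [hf, AlternatingMap.smul_apply, smul_eq_mul, map_mul, Finset.mul_sum]
    exact Finset.sum_congr rfl fun f _ => by ring
  definite ω h := hf_def b k ω h

end Core

/-- The spaces of alternating forms are finite dimensional. -/
theorem finite_aform [FiniteDimensional ℂ H] (k : ℕ) : FiniteDimensional ℂ (AForm H k) := by
  set b := Module.finBasis ℂ H with hb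
  let F : AForm H k →ₗ[ℂ] ((Fin k → Fin (Module.finrank ℂ H)) → ℂ) :=
    { toFun := fun ω f => ω fun a => b (f a)
      map_add' := fun _ _ => rfl
      map_smul' := fun _ _ => rfl }
  refine Module.Finite.of_injective F ?_
  intro ω ω' hωω'
  have h1 : ω.toMultilinearMap = ω'.toMultilinearMap := by
    refine Module.Basis.ext_multilinear (fun _ => b) fun f => ?_
    exact congrFun hωω' f
  ext v
  exact congrArg (fun f : MultilinearMap ℂ (fun _ : Fin k => H) ℂ => f v) h1

section Fock

variable {K : Type*} [Fintype K] [DecidableEq K] (b : Module.Basis K ℂ H)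

/-- The Fock space of alternating forms. -/
noncomputable def altFock :
    @Fock (fun k => AForm H k)
      (fun k => @InnerProductSpace.Core.toNormedAddCommGroup ℂ _ _ _ _ (core b k))
      (fun k => InnerProductSpace.ofCore (core b k).toCore) K _ :=
  letI (k : ℕ) : NormedAddCommGroup (AForm H k) :=
    @InnerProductSpace.Core.toNormedAddCommGroup ℂ _ _ _ _ (core b k)
  letI (k : ℕ) : InnerProductSpace ℂ (AForm H k) := InnerProductSpace.ofCore (core b k).toCore
  { c := fun α k => wd (b.coord α) k
    d := fun α k => ct (b α) k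
    adj := fun α k x y => hf_adj b α k x y
    car₀ := fun α β x => by
      change ct (b α) 0 (wd (b.coord β) 0 x) = _
      rw [ct_wd_zero]
      by_cases h : α = β
      · simp [h]
      · simp [h]
    car := fun α β k x => by
      change ct (b α) (k + 1) (wd (b.coord β) (k + 1) x) = _
      rw [ct_wd]
      by_cases h : α = β
      · simp [h]
      · simp [h]
    dd := fun α β k x => ct_ct _ _ k x }

end Fock

variable {T : Type} [Fintype T] [DecidableEq T] {I S : T → Type} [∀ t, Fintype (I t)]
  [∀ t, DecidableEq (I t)] [∀ t, Fintype (S t)] [∀ t, DecidableEq (S t)]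
  (b : Module.Basis (Idx I S) ℂ H)

/-- The lowering endomorphisms of `H`. -/
noncomputable def dn (t : T) (i j : I t) : Module.End ℂ H :=
  ∑ s : S t, ((b.coord ⟨t, i, s, true⟩).smulRight (b ⟨t, j, s, false⟩) +
    (b.coord ⟨t, j, s, true⟩).smulRight (b ⟨t, i, s, false⟩))

/-- The raising endomorphisms of `H`. -/
noncomputable def up (t : T) (i j : I t) : Module.End ℂ H :=
  ∑ s : S t, ((b.coord ⟨t, j, s, false⟩).smulRight (b ⟨t, i, s, true⟩) +
    (b.coord ⟨t, i, s, false⟩).smulRight (b ⟨t, j, s, true⟩))

/-- The projection to the span of the basis vectors with `ε = false`. -/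
noncomputable def pm : Module.End ℂ H :=
  ∑ t : T, ∑ i : I t, ∑ s : S t, (b.coord ⟨t, i, s, false⟩).smulRight (b ⟨t, i, s, false⟩)

/-- The products with the invariant two forms. -/
noncomputable def Lw (t : T) (s s' : S t) (k : ℕ) : AForm H k →ₗ[ℂ] AForm H (k + 2) :=
  ∑ i : I t, (wd (b.coord ⟨t, i, s, true⟩) (k + 1) ∘ₗ wd (b.coord ⟨t, i, s', false⟩) k +
    wd (b.coord ⟨t, i, s', true⟩) (k + 1) ∘ₗ wd (b.coord ⟨t, i, s, false⟩) k)

/-- The powers of the ideal generated by the invariant two forms. -/
noncomputable def Jfil : ℕ → (k : ℕ) → Submodule ℂ (AForm H k)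
  | 0, _ => ⊤
  | _ + 1, 0 => ⊥
  | _ + 1, 1 => ⊥
  | j + 1, k + 2 => ⨆ t : T, ⨆ s : S t, ⨆ s' : S t, (Jfil j k).map (Lw b t s s' k)

end Pool.Agent.GHCFull
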