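import Pool.Agent.OddRank.Commutant
import Pool.Agent.GHCFull.Inner

/-!
# Adapted bases
-/

set_option autoImplicit false

universe u

namespace Pool.Agent.GHCFull

open Pool.Agent.OddRank

variable {H : Type u} [AddCommGroup H] [Module ℂ H]
  {T : Type} [Fintype T] [DecidableEq T] {I S : T → Type} [∀ t, Fintype (I t)]
  [∀ t, DecidableEq (I t)] [∀ t, Fintype (S t)] [∀ t, DecidableEq (S t)]

/-- A basis of `H = ⊕ W_t ⊗ M_t` adapted to a set `G` of endomorphisms, a symplectic form `ψ` and an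
idempotent `e` in `G`. -/
structure Adapted (ψ : H →ₗ[ℂ] H →ₗ[ℂ] ℂ) (G : Set (Module.End ℂ H)) (e : Module.End ℂ H)
    (b : Module.Basis (Idx I S) ℂ H) : Prop where
  e_true : ∀ t i s, e (b ⟨t, i, s, true⟩) = b ⟨t, i, s, true⟩
  e_false : ∀ t i s, e (b ⟨t, i, s, false⟩) = 0
  ψ_tf : ∀ t i s, ψ (b ⟨t, i, s, true⟩) (b ⟨t, i, s, false⟩) = 1
  ψ_ne : ∀ t i s t' i' s', (⟨t, i, s, true⟩ : Idx I S) ≠ ⟨t', i', s', true⟩ →
    ψ (b ⟨t, i, s, true⟩) (b ⟨t', i', s', false⟩) = 0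
  ψ_tt : ∀ t i s t' i' s', ψ (b ⟨t, i, s, true⟩) (b ⟨t', i', s', true⟩) = 0
  ψ_ff : ∀ t i s t' i' s', ψ (b ⟨t, i, s, false⟩) (b ⟨t', i', s', false⟩) = 0
  mul : ∀ g ∈ G, ∀ t, ∃ m : I t × Bool → I t × Bool → ℂ, ∀ i s ε,
    g (b ⟨t, i, s, ε⟩) = ∑ q : I t × Bool, m q (i, ε) • b ⟨t, q.1, s, q.2⟩
  comm : ∀ z : Module.End ℂ H, (∀ g ∈ G, g * z = z * g) → ∀ t, ∃ ζ : S t → S t → ℂ, ∀ i s ε,
    z (b ⟨t, i, s, ε⟩) = ∑ s' : S t, ζ s' s • b ⟨t, i, s', ε⟩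

/-- The invariant two forms. -/
noncomputable def th (b : Module.Basis (Idx I S) ℂ H) (t : T) (s s' : S t) :
    H →ₗ[ℂ] H →ₗ[ℂ] ℂ :=
  ∑ i : I t, ((b.coord ⟨t, i, s, true⟩).smulRight (b.coord ⟨t, i, s', false⟩) -
    (b.coord ⟨t, i, s', false⟩).smulRight (b.coord ⟨t, i, s, true⟩) +
    (b.coord ⟨t, i, s', true⟩).smulRight (b.coord ⟨t, i, s, false⟩) -
    (b.coord ⟨t, i, s, false⟩).smulRight (b.coord ⟨t, i, s', true⟩))

end Pool.Agent.GHCFull
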