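import Pool.Agent.GHCFull.S1a

/-!
# Isometries
-/

set_option autoImplicit false

universe u

namespace Pool.Agent.GHCFull

open Pool.Agent.OddRank

variable {H : Type u} [AddCommGroup H] [Module ℂ H] [FiniteDimensional ℂ H]

/-- Isomorphic nondegenerate irreducible subspaces are isometric. -/
theorem exists_isometry {ψ : H →ₗ[ℂ] H →ₗ[ℂ] ℂ}
    {G : Set (Module.End ℂ H)} (hψ : ∀ e ∈ G, ∀ x y, ψ (e x) y + ψ x (e y) = ψ x y)
    {U U' : Submodule ℂ H} (hU : Irreducible G U) (hU' : Irreducible G U') (hnd : NdOn ψ U)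
    (hnd' : NdOn ψ U') (hiso : Iso G U U') :
    ∃ τ : U →ₗ[ℂ] U', Equiv G τ ∧ Function.Bijective τ ∧
      ∀ x y : U, ψ (τ x) (τ y) = ψ x y := by
  obtain ⟨f, hf, hb⟩ := hiso
  obtain ⟨p, hp⟩ := Submodule.exists_isCompl U
  set q : H →ₗ[ℂ] U := U.projectionOnto p hp with hq
  have hqu : ∀ u : U, q u = u := fun u => Submodule.projectionOnto_apply_left hp u
  set s : H →ₗ[ℂ] H := U'.subtype ∘ₗ f ∘ₗ q with hs
  have hsu : ∀ u : U, s u = f u := by
    intro u
    change ((f (q u) : U') : H) = f u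
    rw [hqu]
  set φ' : H →ₗ[ℂ] H →ₗ[ℂ] ℂ := (LinearMap.lcomp ℂ ℂ s) ∘ₗ ψ ∘ₗ s with hφ'
  have hφ'a : ∀ x y, φ' x y = ψ (s x) (s y) := fun _ _ => rfl
  have hse : ∀ e ∈ G, ∀ x ∈ U, s (e x) = e (s x) := by
    intro e he x hx
    have h1 := hf e he ⟨x, hx⟩ ⟨e x, hU.1 e he x hx⟩ rfl
    rw [← hsu ⟨e x, hU.1 e he x hx⟩, ← hsu ⟨x, hx⟩] at h1
    exact h1
  obtain ⟨c, hc⟩ := form_unique hU (φ := ψ) (φ' := φ') hnd
    (fun e he x _ y _ => hψ e he x y)
    (fun e he x hx y hy => by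
      rw [hφ'a, hφ'a, hφ'a, hse e he x hx, hse e he y hy]
      exact hψ e he _ _)
  have hc' : ∀ x y : U, ψ (f x) (f y) = c * ψ x y := by
    intro x y
    have := hc x x.2 y y.2
    rw [hφ'a, hsu, hsu] at this
    exact this
  have hc0 : c ≠ 0 := by
    intro h0
    obtain ⟨x', hx', hx0⟩ := Submodule.exists_mem_ne_zero_of_ne_bot hU'.2.1
    apply hx0
    refine hnd' x' hx' fun y' hy' => ?_
    obtain ⟨x, hx⟩ := hb.2 ⟨x', hx'⟩
    obtain ⟨y, hy⟩ := hb.2 ⟨y', hy'⟩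
    have := hc' x y
    rw [hx, hy, h0, zero_mul] at this
    exact this
  obtain ⟨d, hd⟩ := IsAlgClosed.exists_pow_nat_eq c (n := 2) (by norm_num)
  have hd0 : d ≠ 0 := by
    rintro rfl
    apply hc0
    rw [← hd]
    norm_num
  refine ⟨d⁻¹ • f, ?_, ?_, ?_⟩
  · intro e he u v huv
    have := hf e he u v huv
    rw [LinearMap.smul_apply, LinearMap.smul_apply, Submodule.coe_smul, Submodule.coe_smul,
      map_smul, this]
  · constructor
    · intro x y hxy
      apply hb.1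
      rw [LinearMap.smul_apply, LinearMap.smul_apply] at hxy
      exact smul_right_injective _ (inv_ne_zero hd0) hxy
    · intro y
      obtain ⟨x, hx⟩ := hb.2 (d • y)
      refine ⟨x, ?_⟩
      rw [LinearMap.smul_apply, hx, inv_smul_smul₀ hd0]
  · intro x y
    rw [LinearMap.smul_apply, LinearMap.smul_apply, Submodule.coe_smul, Submodule.coe_smul,
      map_smul, map_smul, LinearMap.smul_apply, hc', smul_eq_mul, smul_eq_mul, ← hd]
    field_simp

end Pool.Agent.GHCFull
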