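import Pool.Agent.GHCFull.S1a

/-!
# Symplectic bases
-/

set_option autoImplicit false

universe u

namespace Pool.Agent.GHCFull

open Pool.Agent.OddRank

variable {H : Type u} [AddCommGroup H] [Module ℂ H] [FiniteDimensional ℂ H]

/-- A symplectic basis adapted to an idempotent. -/
theorem exists_sympl {ψ : H →ₗ[ℂ] H →ₗ[ℂ] ℂ} (halt : ∀ x, ψ x x = 0) {e : Module.End ℂ H}
    (he : e * e = e) (hψ : ∀ x y, ψ (e x) y + ψ x (e y) = ψ x y) {U : Submodule ℂ H}
    (hU : ∀ u ∈ U, e u ∈ U) (hnd : NdOn ψ U) :
    ∃ (n : ℕ) (x y : Fin n → U), (∀ i, e (x i) = x i) ∧ (∀ i, e (y i) = 0) ∧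
      (∀ i j, ψ (x i) (y j) = if i = j then 1 else 0) ∧ (∀ i j, ψ (x i) (x j) = 0) ∧
      (∀ i j, ψ (y i) (y j) = 0) ∧
      ∀ u : U, (u : H) = ∑ i, (ψ u (y i) • (x i : H) - ψ u (x i) • (y i : H)) := by
  classical
  have hee : ∀ v, e (e v) = e v := fun v => by
    rw [← Module.End.mul_apply, he]
  have hskew : ∀ a b, ψ a b = -ψ b a := by
    intro a b
    have h := halt (a + b)
    simp only [map_add, LinearMap.add_apply, halt, zero_add, add_zero] at h
    exact eq_neg_of_add_eq_zero_right h
  -- the subspace of fixed vectors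
  let X : Submodule ℂ H :=
    { carrier := {u | u ∈ U ∧ e u = u}
      add_mem' := fun {a b} ha hb => ⟨U.add_mem ha.1 hb.1, by rw [map_add, ha.2, hb.2]⟩
      zero_mem' := ⟨U.zero_mem, map_zero _⟩
      smul_mem' := fun c a ha => ⟨U.smul_mem c ha.1, by rw [map_smul, ha.2]⟩ }
  let bX := Module.finBasis ℂ X
  -- dual vectors
  let f : X →ₗ[ℂ] Module.Dual ℂ U :=
    { toFun := fun x => (ψ x).comp U.subtype
      map_add' := fun a b => by ext u; simp
      map_smul' := fun c a => by ext u; simp }
  have hf : Function.Injective f := by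
    rw [injective_iff_map_eq_zero]
    intro x hx
    have h := hnd x x.2.1 (fun y hy => by
      have := LinearMap.congr_fun hx ⟨y, hy⟩
      simpa [f] using this)
    exact Subtype.ext h
  have hdual : ∀ φ : Module.Dual ℂ X, ∃ y : U, ∀ x : X, ψ x y = φ x := by
    intro φ
    obtain ⟨g, hg⟩ := LinearMap.dualMap_surjective_of_injective hf φ
    refine ⟨(Module.evalEquiv ℂ U).symm g, fun x => ?_⟩
    rw [← hg]
    have h := Module.apply_evalEquiv_symm_apply (R := ℂ) (M := U) (f x) g
    rw [LinearMap.dualMap_apply, ← h]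
    rfl
  choose y' hy' using fun j => hdual (bX.coord j)
  have hfix : ∀ x : X, e x = x := fun x => x.2.2
  have hiso : ∀ (x : X) (v : H), ψ x (e v) = 0 := by
    intro x v
    have h := hψ x v
    rw [hfix] at h
    simpa using h
  refine ⟨_, fun i => ⟨bX i, (bX i).2.1⟩, fun j => ⟨y' j - e (y' j),
    U.sub_mem (y' j).2 (hU _ (y' j).2)⟩, fun i => hfix _, fun j => ?_, fun i j => ?_,
    fun i j => ?_, fun i j => ?_, fun u => ?_⟩
  · simp only [map_sub, hee, sub_self]
  · simp only [map_sub, hiso, sub_zero]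
    rw [hy']
    simp [Finsupp.single_apply]
  · have h := hiso (bX i) (bX j)
    rwa [hfix] at h
  · have h := hψ (y' i - e (y' i)) (y' j - e (y' j))
    simp only [map_sub e, hee, sub_self, map_zero, LinearMap.zero_apply, add_zero] at h
    exact h.symm
  · set x : Fin (Module.finrank ℂ X) → H := fun i => bX i with hx
    set y : Fin (Module.finrank ℂ X) → H := fun j => y' j - e (y' j) with hy
    have hxU : ∀ i, x i ∈ U := fun i => (bX i).2.1
    have hyU : ∀ j, y j ∈ U := fun j => U.sub_mem (y' j).2 (hU _ (y' j).2)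
    have hey : ∀ j, e (y j) = 0 := fun j => by simp only [hy, map_sub, hee, sub_self]
    have hxy : ∀ i j, ψ (x i) (y j) = if i = j then 1 else 0 := by
      intro i j
      simp only [hx, hy, map_sub, hiso, sub_zero]
      rw [hy']
      simp [Finsupp.single_apply]
    have hxx : ∀ i j, ψ (x i) (x j) = 0 := by
      intro i j
      have h := hiso (bX i) (bX j)
      rwa [hfix] at h
    have hyy : ∀ i j, ψ (y i) (y j) = 0 := by
      intro i j
      have h := hψ (y i) (y j)
      rw [hey, hey, map_zero, map_zero, LinearMap.zero_apply, add_zero] at h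
      exact h.symm
    have hyx : ∀ i j, ψ (y i) (x j) = -if i = j then 1 else 0 := by
      intro i j
      rw [hskew, hxy]
      simp only [eq_comm]
    have hspan : ∀ z ∈ U, e z = z → ∃ c : Fin (Module.finrank ℂ X) → ℂ, z = ∑ i, c i • x i := by
      intro z hz hez
      refine ⟨fun i => bX.repr ⟨z, hz, hez⟩ i, ?_⟩
      have h := congrArg (fun w : X => (w : H)) (bX.sum_repr ⟨z, hz, hez⟩)
      simp only [AddSubmonoidClass.coe_finsetSum, SetLike.val_smul] at h
      exact h.symm
    change (u : H) = ∑ i, (ψ u (y i) • x i - ψ u (x i) • y i)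
    rw [← sub_eq_zero]
    set v : H := (u : H) - ∑ i, (ψ u (y i) • x i - ψ u (x i) • y i) with hv
    have hvU : v ∈ U := U.sub_mem u.2 (U.sum_mem fun i _ =>
      U.sub_mem (U.smul_mem _ (hxU i)) (U.smul_mem _ (hyU i)))
    have hvx : ∀ j, ψ v (x j) = 0 := by
      intro j
      simp only [hv, map_sub, map_sum, map_smul, LinearMap.sub_apply, LinearMap.sum_apply,
        LinearMap.smul_apply, hxx, hyx, smul_eq_mul, mul_zero, zero_sub, mul_neg, mul_ite,
        mul_one, neg_neg, Finset.sum_ite_eq', Finset.mem_univ, if_true, sub_self]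
    have hvy : ∀ j, ψ v (y j) = 0 := by
      intro j
      simp only [hv, map_sub, map_sum, map_smul, LinearMap.sub_apply, LinearMap.sum_apply,
        LinearMap.smul_apply, hyy, hxy, smul_eq_mul, mul_zero, sub_zero, mul_ite,
        mul_one, Finset.sum_ite_eq', Finset.mem_univ, if_true, sub_self]
    have hev : e v = 0 := by
      obtain ⟨c, hc⟩ := hspan (e v) (hU v hvU) (hee v)
      have hc0 : ∀ j, c j = 0 := by
        intro j
        have h1 := hψ v (y j)
        rw [hey, map_zero, add_zero, hvy, hc] at h1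
        simpa only [map_sum, map_smul, LinearMap.sum_apply, LinearMap.smul_apply, hxy,
          smul_eq_mul, mul_ite, mul_one, mul_zero, Finset.sum_ite_eq', Finset.mem_univ,
          if_true] using h1
      rw [hc]
      exact Finset.sum_eq_zero fun i _ => by rw [hc0, zero_smul]
    refine hnd v hvU fun w hw => ?_
    rw [← hψ v w, hev, map_zero, LinearMap.zero_apply, zero_add]
    obtain ⟨c, hc⟩ := hspan (e w) (hU w hw) (hee w)
    rw [hc, map_sum]
    exact Finset.sum_eq_zero fun i _ => by rw [map_smul, hvx, smul_zero]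

end Pool.Agent.GHCFull
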