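import Pool.Agent.GHCFull.S1
import Pool.Agent.GHCFull.S2a
import Pool.Agent.GHCFull.S2b
import Pool.Agent.GHCFull.Adapted

/-!
# Existence of adapted bases
-/

set_option autoImplicit false

set_option linter.unusedSectionVars false

universe u

namespace Pool.Agent.GHCFull

open Pool.Agent.OddRank

variable {H : Type u} [AddCommGroup H] [Module ℂ H] [FiniteDimensional ℂ H]

/-- Equivariant maps of irreducible spaces are multiples of an equivariant bijection. -/
private theorem S3_schur {G : Set (Module.End ℂ H)} {U U' : Submodule ℂ H}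
    (hU : Irreducible G U) (hU' : Irreducible G U') {φ τ : U →ₗ[ℂ] U'} (hφ : Equiv G φ)
    (hτ : Equiv G τ) (hb : Function.Bijective τ) : ∃ c : ℂ, ∀ u, φ u = c • τ u := by
  let τe : U ≃ₗ[ℂ] U' := LinearEquiv.ofBijective τ hb
  have hτe : ∀ u, τe u = τ u := fun u => rfl
  let f : Module.End ℂ U := τe.symm.toLinearMap ∘ₗ φ
  have : Nontrivial U := Submodule.nontrivial_iff_ne_bot.2 hU.2.1
  obtain ⟨c, hc⟩ := Module.End.exists_eigenvalue f
  obtain ⟨w, hw⟩ := hc.exists_hasEigenvector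
  have h1 : φ w = c • τ w := by
    have h2 : f w = c • w := hw.apply_eq_smul
    have h3 : τe (f w) = c • τe w := by rw [h2, map_smul]
    rw [← hτe w, ← h3]
    change φ w = τe (τe.symm (φ w))
    rw [LinearEquiv.apply_symm_apply]
  refine ⟨c, ?_⟩
  have h4 : Equiv G (φ - c • τ) := by
    intro e he u v huv
    have h5 := hφ e he u v huv
    have h6 := hτ e he u v huv
    simp only [LinearMap.sub_apply, LinearMap.smul_apply, Submodule.coe_sub, Submodule.coe_smul,
      map_sub, map_smul, h5, h6]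
  by_contra hcon
  push Not at hcon
  obtain ⟨u, hu⟩ := hcon
  have h7 : φ - c • τ ≠ 0 := fun h => hu (by
    have h8 := LinearMap.congr_fun h u
    rw [LinearMap.sub_apply, LinearMap.smul_apply, LinearMap.zero_apply, sub_eq_zero] at h8
    exact h8)
  have h8 := (schur hU hU' h4 h7).1
  apply hw.2
  apply h8
  rw [LinearMap.sub_apply, LinearMap.smul_apply, h1, sub_self, map_zero]

section Data

variable {T : Type} [Fintype T] [DecidableEq T] {I S : T → Type} [∀ t, Fintype (I t)]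
  [∀ t, DecidableEq (I t)] [∀ t, Fintype (S t)] [∀ t, DecidableEq (S t)]
  (ψ : H →ₗ[ℂ] H →ₗ[ℂ] ℂ) (G : Set (Module.End ℂ H))
  (W : T → Submodule ℂ H) (U : ∀ t, S t → Submodule ℂ H)

/-- The basis of the model space. -/
private def bb {W : T → Submodule ℂ H} (x y : ∀ t, I t → W t) (t : T) : I t × Bool → W t
  | (i, true) => x t i
  | (i, false) => y t i

/-- The basis vectors. -/
private def bv {W : T → Submodule ℂ H} {U : ∀ t, S t → Submodule ℂ H} (x y : ∀ t, I t → W t)
    (τ : ∀ t s, W t →ₗ[ℂ] U t s) : Idx I S → H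
  | ⟨t, i, s, ε⟩ => τ t s (bb x y t (i, ε))

/-- The coordinates. -/
private def fv {W : T → Submodule ℂ H} {U : ∀ t, S t → Submodule ℂ H} (x y : ∀ t, I t → W t)
    (τ : ∀ t s, W t →ₗ[ℂ] U t s) : Idx I S → H →ₗ[ℂ] ℂ
  | ⟨t, i, s, true⟩ => ψ.flip (bv x y τ ⟨t, i, s, false⟩)
  | ⟨t, i, s, false⟩ => -ψ.flip (bv x y τ ⟨t, i, s, true⟩)

/-- The data. -/
private structure S3Data (x y : ∀ t, I t → W t) (τ : ∀ t s, W t →ₗ[ℂ] U t s) : Prop where
  halt : ∀ x, ψ x x = 0
  hnd : ∀ x, (∀ y, ψ x y = 0) → x = 0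
  hψ : ∀ e ∈ G, ∀ x y, ψ (e x) y + ψ x (e y) = ψ x y
  hW : ∀ t, Irreducible G (W t)
  hU : ∀ t s, Irreducible G (U t s)
  hiso : ∀ t t' s', Iso G (W t) (U t' s') → t = t'
  hUnd : ∀ t s, NdOn ψ (U t s)
  horth : ∀ t s t' s', (⟨t, s⟩ : Σ t, S t) ≠ ⟨t', s'⟩ → ∀ x ∈ U t s, ∀ y ∈ U t' s', ψ x y = 0
  hsup : ∀ V : Submodule ℂ H, (∀ t s, U t s ≤ V) → V = ⊤
  xy : ∀ t i j, ψ (x t i) (y t j) = if i = j then 1 else 0
  xx : ∀ t i j, ψ (x t i) (x t j) = 0
  yy : ∀ t i j, ψ (y t i) (y t j) = 0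
  ex : ∀ t (u : W t), (u : H) =
    ∑ i, (ψ u (y t i) • (x t i : H) - ψ u (x t i) • (y t i : H))
  hτ : ∀ t s, Equiv G (τ t s)
  hb : ∀ t s, Function.Bijective (τ t s)
  hi : ∀ t s (u v : W t), ψ (τ t s u) (τ t s v) = ψ u v

variable {ψ G W U} {x y : ∀ t, I t → W t} {τ : ∀ t s, W t →ₗ[ℂ] U t s}

namespace S3Data

variable (D : S3Data ψ G W U x y τ)

include D

private theorem symm (a b : H) : ψ a b = -ψ b a := by
  have h1 := D.halt (a + b)
  simp only [map_add, LinearMap.add_apply, D.halt, zero_add, add_zero] at h1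
  linear_combination h1

private theorem gram_tt (t i s t' i' s') :
    ψ (bv x y τ ⟨t, i, s, true⟩) (bv x y τ ⟨t', i', s', true⟩) = 0 := by
  by_cases h : (⟨t, s⟩ : Σ t, S t) = ⟨t', s'⟩
  · cases h
    change ψ (τ t s (x t i)) (τ t s (x t i')) = 0
    rw [D.hi, D.xx]
  · exact D.horth t s t' s' h _ (τ t s (x t i)).2 _ (τ t' s' (x t' i')).2

private theorem gram_ff (t i s t' i' s') :
    ψ (bv x y τ ⟨t, i, s, false⟩) (bv x y τ ⟨t', i', s', false⟩) = 0 := by
  by_cases h : (⟨t, s⟩ : Σ t, S t) = ⟨t', s'⟩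
  · cases h
    change ψ (τ t s (y t i)) (τ t s (y t i')) = 0
    rw [D.hi, D.yy]
  · exact D.horth t s t' s' h _ (τ t s (y t i)).2 _ (τ t' s' (y t' i')).2

private theorem gram_self (t i s) :
    ψ (bv x y τ ⟨t, i, s, true⟩) (bv x y τ ⟨t, i, s, false⟩) = 1 := by
  change ψ (τ t s (x t i)) (τ t s (y t i)) = 1
  rw [D.hi, D.xy, if_pos rfl]

private theorem gram_ne (t i s t' i' s') (hne : (⟨t, i, s⟩ : Σ t, I t × S t) ≠ ⟨t', i', s'⟩) :
    ψ (bv x y τ ⟨t, i, s, true⟩) (bv x y τ ⟨t', i', s', false⟩) = 0 := by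
  by_cases h : (⟨t, s⟩ : Σ t, S t) = ⟨t', s'⟩
  · cases h
    change ψ (τ t s (x t i)) (τ t s (y t i')) = 0
    rw [D.hi, D.xy, if_neg]
    rintro rfl
    exact hne rfl
  · exact D.horth t s t' s' h _ (τ t s (x t i)).2 _ (τ t' s' (y t' i')).2

/-- Expansion in the model space. -/
private theorem expand (t : T) (s : S t) (w : W t) :
    (τ t s w : H) = ∑ q : I t × Bool,
      fv ψ x y τ ⟨t, q.1, s, q.2⟩ (τ t s w) • bv x y τ ⟨t, q.1, s, q.2⟩ := by
  have h1 : w = ∑ i, (ψ w (y t i) • x t i - ψ w (x t i) • y t i) := by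
    apply Subtype.ext
    refine (D.ex t w).trans ?_
    rw [Submodule.coe_sum]
    rfl
  conv_lhs => rw [h1]
  rw [map_sum, Submodule.coe_sum, Fintype.sum_prod_type]
  refine Finset.sum_congr rfl fun i _ => ?_
  rw [Fintype.sum_bool, map_sub, map_smul, map_smul, Submodule.coe_sub, Submodule.coe_smul,
    Submodule.coe_smul]
  change _ = ψ (τ t s w) (τ t s (y t i)) • ((τ t s (x t i) : U t s) : H) +
    (-ψ (τ t s w) (τ t s (x t i))) • ((τ t s (y t i) : U t s) : H)
  rw [D.hi, D.hi, neg_smul, sub_eq_add_neg]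

private theorem dual : Module.DualBases (bv x y τ) (fun α => fv ψ x y τ α) where
  eval_same := by
    rintro ⟨t, i, s, _ | _⟩
    · change -ψ (bv x y τ ⟨t, i, s, false⟩) (bv x y τ ⟨t, i, s, true⟩) = 1
      rw [D.symm, neg_neg, D.gram_self]
    · change ψ (bv x y τ ⟨t, i, s, true⟩) (bv x y τ ⟨t, i, s, false⟩) = 1
      exact D.gram_self t i s
  eval_of_ne := by
    rintro ⟨t, i, s, _ | _⟩ ⟨t', i', s', _ | _⟩ h
    · change -ψ (bv x y τ ⟨t', i', s', false⟩) (bv x y τ ⟨t, i, s, true⟩) = 0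
      rw [D.symm, neg_neg, D.gram_ne]
      rintro h1
      apply h
      cases h1
      rfl
    · change -ψ (bv x y τ ⟨t', i', s', true⟩) (bv x y τ ⟨t, i, s, true⟩) = 0
      rw [D.gram_tt, neg_zero]
    · change ψ (bv x y τ ⟨t', i', s', false⟩) (bv x y τ ⟨t, i, s, false⟩) = 0
      exact D.gram_ff _ _ _ _ _ _
    · change ψ (bv x y τ ⟨t', i', s', true⟩) (bv x y τ ⟨t, i, s, false⟩) = 0
      rw [D.gram_ne]
      rintro h1
      apply h
      cases h1
      rfl
  total := by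
    intro v v' hv
    rw [← sub_eq_zero]
    apply D.hnd
    have h1 : ∀ α, ψ (v - v') (bv x y τ α) = 0 := by
      rintro ⟨t, i, s, _ | _⟩
      · have h2 := hv ⟨t, i, s, true⟩
        change ψ v (bv x y τ ⟨t, i, s, false⟩) = ψ v' (bv x y τ ⟨t, i, s, false⟩) at h2
        rw [map_sub, LinearMap.sub_apply, h2, sub_self]
      · have h2 := hv ⟨t, i, s, false⟩
        change -ψ v (bv x y τ ⟨t, i, s, true⟩) = -ψ v' (bv x y τ ⟨t, i, s, true⟩) at h2
        rw [map_sub, LinearMap.sub_apply, neg_inj.1 h2, sub_self]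
    have h2 : LinearMap.ker (ψ (v - v')) = ⊤ := by
      apply D.hsup
      intro t s u hu
      obtain ⟨w, hw⟩ := (D.hb t s).2 ⟨u, hu⟩
      have h3 : u = (τ t s w : H) := by rw [hw]
      rw [LinearMap.mem_ker, h3, D.expand t s w, map_sum]
      refine Finset.sum_eq_zero fun q _ => ?_
      rw [map_smul, h1, smul_zero]
    intro z
    have h3 : z ∈ LinearMap.ker (ψ (v - v')) := by rw [h2]; exact Submodule.mem_top
    exact h3

/-- The projection to `U t s`. -/
private theorem exists_P (t : T) (s : S t) : ∃ P : H →ₗ[ℂ] U t s,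
    (∀ v, (P v : H) = ∑ q : I t × Bool,
      fv ψ x y τ ⟨t, q.1, s, q.2⟩ v • bv x y τ ⟨t, q.1, s, q.2⟩) ∧
    ∀ g ∈ G, ∀ v, (P (g v) : H) = g (P v) := by
  let P : H →ₗ[ℂ] U t s := ∑ q : I t × Bool,
    (fv ψ x y τ ⟨t, q.1, s, q.2⟩).smulRight (τ t s (bb x y t q))
  have hP : ∀ v, (P v : H) = ∑ q : I t × Bool,
      fv ψ x y τ ⟨t, q.1, s, q.2⟩ v • bv x y τ ⟨t, q.1, s, q.2⟩ := by
    intro v
    change (((∑ q : I t × Bool, (fv ψ x y τ ⟨t, q.1, s, q.2⟩).smulRight
      (τ t s (bb x y t q))) v : U t s) : H) = _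
    rw [LinearMap.sum_apply, Submodule.coe_sum]
    rfl
  refine ⟨P, hP, ?_⟩
  have h1 : ∀ v, ∀ α : I t × Bool, ψ (P v) (bv x y τ ⟨t, α.1, s, α.2⟩) =
      ψ v (bv x y τ ⟨t, α.1, s, α.2⟩) := by
    intro v
    have h0 : ∀ α : I t × Bool, fv ψ x y τ ⟨t, α.1, s, α.2⟩ (P v) =
        fv ψ x y τ ⟨t, α.1, s, α.2⟩ v := by
      intro α
      rw [hP, map_sum, Finset.sum_eq_single α]
      · rw [map_smul, D.dual.eval_same ⟨t, α.1, s, α.2⟩, smul_eq_mul, mul_one]
      · intro β _ hβ
        rw [map_smul]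
        have h2 : fv ψ x y τ ⟨t, α.1, s, α.2⟩ (bv x y τ ⟨t, β.1, s, β.2⟩) = 0 := by
          apply D.dual.eval_of_ne
          intro h3
          apply hβ
          obtain ⟨a1, a2⟩ := α
          obtain ⟨b1, b2⟩ := β
          simp only [Sigma.mk.injEq, heq_eq_eq, true_and, Prod.mk.injEq] at h3
          rw [h3.1, h3.2]
        rw [h2, smul_zero]
      · intro h
        exact absurd (Finset.mem_univ _) h
    rintro ⟨i, _ | _⟩
    · exact h0 (i, true)
    · exact neg_inj.1 (h0 (i, false))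
  have h2 : ∀ v, ∀ u ∈ U t s, ψ (P v) u = ψ v u := by
    intro v u hu
    obtain ⟨w, hw⟩ := (D.hb t s).2 ⟨u, hu⟩
    have h3 : u = (τ t s w : H) := by rw [hw]
    rw [h3, D.expand t s w, map_sum, map_sum]
    refine Finset.sum_congr rfl fun q _ => ?_
    rw [map_smul, map_smul, h1 v q]
  intro g hg v
  have h3 := (D.hU t s).1 g hg (P v) (P v).2
  rw [← sub_eq_zero]
  apply D.hUnd t s _ ((U t s).sub_mem (P (g v)).2 h3)
  intro u hu
  have h4 := h2 (g v) u hu
  have h5 := h2 v u hu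
  have h6 := h2 v (g u) ((D.hU t s).1 g hg u hu)
  have h7 := D.hψ g hg v u
  have h8 := D.hψ g hg (P v) u
  rw [map_sub, LinearMap.sub_apply]
  linear_combination h4 - h8 + h7 + h6 - h5

private theorem comm (z : Module.End ℂ H) (hz : ∀ g ∈ G, g * z = z * g) (t : T) :
    ∃ ζ : S t → S t → ℂ, ∀ i s ε,
      z (bv x y τ ⟨t, i, s, ε⟩) = ∑ s' : S t, ζ s' s • bv x y τ ⟨t, i, s', ε⟩ := by
  choose P hP hPg using D.exists_P
  have hzg : ∀ g ∈ G, ∀ v, g (z v) = z (g v) := fun g hg v => LinearMap.congr_fun (hz g hg) v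
  let Φ : ∀ (s : S t) (t' : T) (s' : S t'), W t →ₗ[ℂ] U t' s' := fun s t' s' =>
    P t' s' ∘ₗ z ∘ₗ (U t s).subtype ∘ₗ τ t s
  have hΦ : ∀ s t' s', Equiv G (Φ s t' s') := by
    intro s t' s' g hg u v huv
    change (P t' s' (z (τ t s v)) : H) = g (P t' s' (z (τ t s u)))
    rw [D.hτ t s g hg u v huv, ← hzg g hg, hPg t' s' g hg]
  have h0 : ∀ s t' s', t ≠ t' → Φ s t' s' = 0 := by
    intro s t' s' htt
    by_contra h
    exact htt (D.hiso t t' s' ⟨_, hΦ s t' s', schur (D.hW t) (D.hU t' s') (hΦ s t' s') h⟩)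
  have h1 : ∀ s s' : S t, ∃ c : ℂ, ∀ u, Φ s t s' u = c • τ t s' u := fun s s' =>
    S3_schur (D.hW t) (D.hU t s') (hΦ s t s') (D.hτ t s') (D.hb t s')
  choose c hc using h1
  refine ⟨fun s' s => c s s', ?_⟩
  intro i s ε
  set v := z (bv x y τ ⟨t, i, s, ε⟩) with hv
  have h2 : v = ∑ α : Idx I S, fv ψ x y τ α v • bv x y τ α := by
    have h3 := D.dual.basis.sum_repr v
    simp only [Module.DualBases.coe_basis, Module.DualBases.basis_repr_apply,
      Module.DualBases.coeffs_apply] at h3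
    exact h3.symm
  have h4 : ∀ t', ∑ β : I t' × S t' × Bool, fv ψ x y τ ⟨t', β⟩ v • bv x y τ ⟨t', β⟩ =
      ∑ s' : S t', (P t' s' v : H) := by
    intro t'
    simp only [hP]
    rw [Finset.sum_comm, Fintype.sum_prod_type, Fintype.sum_prod_type]
    refine Finset.sum_congr rfl fun j _ => ?_
    rw [Fintype.sum_prod_type, Finset.sum_comm]
  have h5 : ∀ t' s', (P t' s' v : H) = Φ s t' s' (bb x y t (i, ε)) := fun t' s' => rfl
  rw [h2, Fintype.sum_sigma, Finset.sum_eq_single t]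
  · rw [h4 t]
    refine Finset.sum_congr rfl fun s' _ => ?_
    rw [h5, hc, Submodule.coe_smul]
    rfl
  · intro t' _ ht'
    rw [h4 t']
    refine Finset.sum_eq_zero fun s' _ => ?_
    rw [h5, h0 s t' s' (Ne.symm ht'), LinearMap.zero_apply, Submodule.coe_zero]
  · intro h
    exact absurd (Finset.mem_univ _) h

private theorem adapted {e : Module.End ℂ H} (he : e ∈ G) (hx : ∀ t i, e (x t i) = x t i)
    (hy : ∀ t i, e (y t i) = 0) : Adapted ψ G e D.dual.basis where
  e_true t i s := by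
    rw [Module.DualBases.coe_basis]
    exact (D.hτ t s e he (x t i) (x t i) (hx t i).symm).symm
  e_false t i s := by
    rw [Module.DualBases.coe_basis]
    have h1 := D.hτ t s e he (y t i) 0 (by rw [hy t i]; rfl)
    rw [map_zero] at h1
    exact h1.symm
  ψ_tf t i s := by
    rw [Module.DualBases.coe_basis]
    exact D.gram_self t i s
  ψ_ne t i s t' i' s' h := by
    rw [Module.DualBases.coe_basis]
    apply D.gram_ne
    intro h1
    apply h
    cases h1
    rfl
  ψ_tt t i s t' i' s' := by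
    rw [Module.DualBases.coe_basis]
    exact D.gram_tt t i s t' i' s'
  ψ_ff t i s t' i' s' := by
    rw [Module.DualBases.coe_basis]
    exact D.gram_ff t i s t' i' s'
  mul g hg t := by
    rw [Module.DualBases.coe_basis]
    have h1 : ∀ q : I t × Bool, ∃ w : W t, (w : H) = g (bb x y t q) := fun q =>
      ⟨⟨_, (D.hW t).1 g hg _ (bb x y t q).2⟩, rfl⟩
    choose w hw using h1
    refine ⟨fun q p => if q.2 then ψ (w p) (y t q.1) else -ψ (w p) (x t q.1), ?_⟩
    intro i s ε
    have h2 := D.hτ t s g hg (bb x y t (i, ε)) (w (i, ε)) (hw (i, ε))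
    change g (τ t s (bb x y t (i, ε))) = _
    rw [← h2, D.expand t s]
    refine Finset.sum_congr rfl fun q _ => ?_
    congr 1
    obtain ⟨j, _ | _⟩ := q
    · change -ψ (τ t s (w (i, ε))) (τ t s (x t j)) = _
      rw [D.hi]
      rfl
    · change ψ (τ t s (w (i, ε))) (τ t s (y t j)) = _
      rw [D.hi]
      rfl
  comm z hz t := by
    rw [Module.DualBases.coe_basis]
    exact D.comm z hz t

end S3Data

end Data

/-- Existence of adapted bases. -/
theorem exists_adapted {ψ : H →ₗ[ℂ] H →ₗ[ℂ] ℂ} (halt : ∀ x, ψ x x = 0)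
    (hnd : ∀ x, (∀ y, ψ x y = 0) → x = 0)
    {G : Set (Module.End ℂ H)} (hG : ∀ e ∈ G, e * e = e)
    (hψ : ∀ e ∈ G, ∀ x y, ψ (e x) y + ψ x (e y) = ψ x y)
    (hss : Semisimple G) (hform : ∀ W, Irreducible G W → ∃ φ, FormOn G W φ)
    {e : Module.End ℂ H} (he : e ∈ G) :
    ∃ (T : Type) (_ : Fintype T) (_ : DecidableEq T) (I S : T → Type)
      (_ : ∀ t, Fintype (I t)) (_ : ∀ t, DecidableEq (I t)) (_ : ∀ t, Fintype (S t))
      (_ : ∀ t, DecidableEq (S t)) (b : Module.Basis (Idx I S) ℂ H), Adapted ψ G e b := by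
  classical
  obtain ⟨r, U, hU, hUnd, horth, hsup⟩ :=
    exists_orth halt hψ hss hform fun x _ h => hnd x fun y => h y Submodule.mem_top
  let R : Setoid (Fin r) :=
    { r := fun s s' => Iso G (U s) (U s')
      iseqv := ⟨fun s => Iso.refl _, fun {s _} h => Iso.symm (hU s).1 h,
        fun {_ _ _} h h' => Iso.trans h h'⟩ }
  let T : Type := Quotient R
  let S : T → Type := fun t => {s : Fin r // Quotient.mk R s = t}
  have : Fintype T := Fintype.ofFinite _
  have : ∀ t, Fintype (S t) := fun t => Fintype.ofFinite _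
  choose n x y hx hy hxy hxx hyy hex using fun t : T =>
    exists_sympl halt (hG e he) (hψ e he) (U := U t.out) (fun u hu => (hU t.out).1 e he u hu)
      (hUnd t.out)
  have hiso : ∀ (t : T) (s : S t), Iso G (U t.out) (U s.1) := by
    intro t s
    have h1 : Quotient.mk R t.out = Quotient.mk R s.1 := by
      rw [Quotient.out_eq, s.2]
    exact Quotient.exact h1
  choose τ hτ hb hi using fun (t : T) (s : S t) =>
    exists_isometry hψ (hU t.out) (hU s.1) (hUnd t.out) (hUnd s.1) (hiso t s)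
  have D : S3Data (I := fun t => Fin (n t)) ψ G (fun t : T => U t.out)
      (fun (t : T) (s : S t) => U s.1) x y τ :=
    { halt := halt
      hnd := hnd
      hψ := hψ
      hW := fun t => hU _
      hU := fun t s => hU _
      hiso := by
        intro t t' s' h
        have h1 : Quotient.mk R t.out = Quotient.mk R s'.1 := Quotient.sound h
        rw [Quotient.out_eq, s'.2] at h1
        exact h1
      hUnd := fun t s => hUnd _
      horth := by
        intro t s t' s' h
        apply horth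
        intro h1
        apply h
        obtain ⟨s, rfl⟩ := s
        obtain ⟨s', rfl⟩ := s'
        simp only at h1
        subst h1
        rfl
      hsup := by
        intro V hV
        rw [eq_top_iff, ← hsup]
        exact iSup_le fun s => hV (Quotient.mk R s) ⟨s, rfl⟩
      xy := hxy
      xx := hxx
      yy := hyy
      ex := hex
      hτ := hτ
      hb := hb
      hi := hi }
  exact ⟨T, inferInstance, inferInstance, fun t => Fin (n t), S, fun t => inferInstance,
    fun t => inferInstance, fun t => inferInstance, fun t => inferInstance, D.dual.basis,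
    D.adapted he hx hy⟩

end Pool.Agent.GHCFull
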