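import Pool.Agent.GHCFull.Adapted

/-!
# Consequences of the existence of adapted bases
-/

set_option autoImplicit false
set_option linter.unusedSectionVars false

universe u

namespace Pool.Agent.GHCFull

open Pool.Agent.OddRank

variable {H : Type u} [AddCommGroup H] [Module ℂ H]
  {T : Type} [Fintype T] [DecidableEq T] {I S : T → Type} [∀ t, Fintype (I t)]
  [∀ t, DecidableEq (I t)] [∀ t, Fintype (S t)] [∀ t, DecidableEq (S t)]
  {ψ : H →ₗ[ℂ] H →ₗ[ℂ] ℂ} {G : Set (Module.End ℂ H)} {e : Module.End ℂ H}
  {b : Module.Basis (Idx I S) ℂ H}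

private theorem coord_self (b : Module.Basis (Idx I S) ℂ H) (α β : Idx I S) :
    b.coord α (b β) = if β = α then 1 else 0 := by
  rw [Module.Basis.coord_apply, Module.Basis.repr_self, Finsupp.single_apply]

private theorem neg_symm (halt : ∀ x, ψ x x = 0) (x y : H) : ψ x y = -ψ y x := by
  have h := halt (x + y)
  simp only [map_add, LinearMap.add_apply, halt, zero_add, add_zero] at h
  exact eq_neg_of_add_eq_zero_right (by rw [← h])

private theorem psi_right_false (A : Adapted ψ G e b) (t : T) (i : I t) (s : S t) (x : H) :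
    ψ x (b ⟨t, i, s, false⟩) = b.coord ⟨t, i, s, true⟩ x := by
  have h : ψ.flip (b ⟨t, i, s, false⟩) = b.coord ⟨t, i, s, true⟩ := by
    refine b.ext fun α => ?_
    obtain ⟨t', i', s', ε⟩ := α
    rw [LinearMap.flip_apply, coord_self]
    cases ε with
    | false =>
      rw [A.ψ_ff, if_neg]
      intro h
      have := congrArg (fun q : Idx I S => q.2.2.2) h
      simp at this
    | true =>
      by_cases h : (⟨t', i', s', true⟩ : Idx I S) = ⟨t, i, s, true⟩
      · rw [if_pos h]
        rw [h]
        exact A.ψ_tf t i s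
      · rw [if_neg h]
        exact A.ψ_ne _ _ _ _ _ _ h
  exact LinearMap.congr_fun h x

private theorem psi_left_false (A : Adapted ψ G e b) (halt : ∀ x, ψ x x = 0) (t : T) (i : I t)
    (s : S t) (x : H) : ψ (b ⟨t, i, s, false⟩) x = -b.coord ⟨t, i, s, true⟩ x := by
  rw [neg_symm halt, psi_right_false A]

private theorem psi_left_true (A : Adapted ψ G e b) (t : T) (i : I t) (s : S t) (x : H) :
    ψ (b ⟨t, i, s, true⟩) x = b.coord ⟨t, i, s, false⟩ x := by
  have h : ψ (b ⟨t, i, s, true⟩) = b.coord ⟨t, i, s, false⟩ := by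
    refine b.ext fun α => ?_
    obtain ⟨t', i', s', ε⟩ := α
    rw [coord_self]
    cases ε with
    | true =>
      rw [A.ψ_tt, if_neg]
      intro h
      have := congrArg (fun q : Idx I S => q.2.2.2) h
      simp at this
    | false =>
      by_cases h : (⟨t', i', s', false⟩ : Idx I S) = ⟨t, i, s, false⟩
      · rw [if_pos h, h]
        exact A.ψ_tf t i s
      · rw [if_neg h]
        refine A.ψ_ne _ _ _ _ _ _ fun h' => h ?_
        have h1 := congrArg (fun q : Idx I S => (⟨q.1, q.2.1, q.2.2.1, false⟩ : Idx I S)) h'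
        exact h1.symm
  exact LinearMap.congr_fun h x

private theorem psi_right_true (A : Adapted ψ G e b) (halt : ∀ x, ψ x x = 0) (t : T) (i : I t)
    (s : S t) (x : H) : ψ x (b ⟨t, i, s, true⟩) = -b.coord ⟨t, i, s, false⟩ x := by
  rw [neg_symm halt, psi_left_true A]

private theorem dn_skew (A : Adapted ψ G e b) (halt : ∀ x, ψ x x = 0) (t : T) (i j : I t)
    (x y : H) : ψ (dn b t i j x) y + ψ x (dn b t i j y) = 0 := by
  simp only [dn, LinearMap.sum_apply, LinearMap.add_apply, LinearMap.smulRight_apply, map_sum,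
    map_add, map_smul, LinearMap.smul_apply, smul_eq_mul, psi_right_false A,
    psi_left_false A halt]
  rw [← Finset.sum_add_distrib]
  refine Finset.sum_eq_zero fun s _ => ?_
  ring

private theorem up_skew (A : Adapted ψ G e b) (halt : ∀ x, ψ x x = 0) (t : T) (i j : I t)
    (x y : H) : ψ (up b t i j x) y + ψ x (up b t i j y) = 0 := by
  simp only [up, LinearMap.sum_apply, LinearMap.add_apply, LinearMap.smulRight_apply, map_sum,
    map_add, map_smul, LinearMap.smul_apply, smul_eq_mul, psi_left_true A,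
    psi_right_true A halt]
  rw [← Finset.sum_add_distrib]
  refine Finset.sum_eq_zero fun s _ => ?_
  ring

/-- the operator `b ⟨t, i, s, ε⟩ ↦ b ⟨t, j, s, ε'⟩`, for all `s` -/
private noncomputable def el (b : Module.Basis (Idx I S) ℂ H) (t : T) (i j : I t) (ε ε' : Bool) :
    Module.End ℂ H :=
  ∑ s : S t, (b.coord ⟨t, i, s, ε⟩).smulRight (b ⟨t, j, s, ε'⟩)

private theorem el_ne (b : Module.Basis (Idx I S) ℂ H) (t : T) (i j : I t) (ε ε' : Bool)
    (t' : T) (h : t' ≠ t) (i' : I t') (s' : S t') (δ : Bool) :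
    el b t i j ε ε' (b ⟨t', i', s', δ⟩) = 0 := by
  simp only [el, LinearMap.sum_apply, LinearMap.smulRight_apply]
  refine Finset.sum_eq_zero fun s _ => ?_
  rw [coord_self, if_neg, zero_smul]
  intro h'
  exact h (congrArg Sigma.fst h')

private theorem el_eq (b : Module.Basis (Idx I S) ℂ H) (t : T) (i j : I t) (ε ε' : Bool)
    (i' : I t) (s' : S t) (δ : Bool) :
    el b t i j ε ε' (b ⟨t, i', s', δ⟩) =
      if i' = i ∧ δ = ε then b ⟨t, j, s', ε'⟩ else 0 := by
  simp only [el, LinearMap.sum_apply, LinearMap.smulRight_apply]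
  rw [Finset.sum_eq_single s']
  · rw [coord_self]
    by_cases h : i' = i ∧ δ = ε
    · rw [if_pos h, if_pos, one_smul]
      rw [h.1, h.2]
    · rw [if_neg h, if_neg, zero_smul]
      intro h'
      have h1 := eq_of_heq (Sigma.mk.inj h').2
      simp only [Prod.mk.injEq] at h1
      exact h ⟨h1.1, h1.2.2⟩
  · intro s _ hs
    rw [coord_self, if_neg, zero_smul]
    intro h'
    have h1 := eq_of_heq (Sigma.mk.inj h').2
    simp only [Prod.mk.injEq] at h1
    exact hs h1.2.1.symm
  · intro h
    exact absurd (Finset.mem_univ _) h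

private theorem el_comm (A : Adapted ψ G e b) (t : T) (i j : I t) (ε ε' : Bool)
    (z : Module.End ℂ H) (hz : ∀ g ∈ G, g * z = z * g) :
    el b t i j ε ε' * z = z * el b t i j ε ε' := by
  refine b.ext fun α => ?_
  obtain ⟨t', i', s', δ⟩ := α
  obtain ⟨ζ, hζ⟩ := A.comm z hz t'
  simp only [Module.End.mul_apply]
  rw [hζ, map_sum]
  simp only [map_smul]
  by_cases h : t' = t
  · subst h
    simp only [el_eq]
    by_cases h2 : i' = i ∧ δ = ε
    · simp only [if_pos h2, hζ]
    · simp only [if_neg h2, smul_zero, Finset.sum_const_zero, map_zero]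
  · simp only [el_ne b t i j ε ε' t' h, smul_zero, Finset.sum_const_zero, map_zero]

private theorem dn_eq (b : Module.Basis (Idx I S) ℂ H) (t : T) (i j : I t) :
    dn b t i j = el b t i j true false + el b t j i true false := by
  rw [dn, el, el, Finset.sum_add_distrib]

private theorem up_eq (b : Module.Basis (Idx I S) ℂ H) (t : T) (i j : I t) :
    up b t i j = el b t j i false true + el b t i j false true := by
  rw [up, el, el, Finset.sum_add_distrib]

/-- The lowering operators lie in the Lie algebra of all similitudes in the double commutant. -/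
theorem Adapted.dn_mem (A : Adapted ψ G e b) (halt : ∀ x, ψ x x = 0)
    {g : Submodule ℂ (Module.End ℂ H)}
    (hfull : ∀ D : Module.End ℂ H, (∀ x y, ψ (D x) y + ψ x (D y) = 0) →
      (∀ z : Module.End ℂ H, (∀ e ∈ G, e * z = z * e) → D * z = z * D) → D ∈ g)
    (t : T) (i j : I t) : dn b t i j ∈ g := by
  refine hfull _ (dn_skew A halt t i j) fun z hz => ?_
  rw [dn_eq, add_mul, mul_add, el_comm A _ _ _ _ _ z hz, el_comm A _ _ _ _ _ z hz]

/-- The raising operators lie in the Lie algebra of all similitudes in the double commutant. -/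
theorem Adapted.up_mem (A : Adapted ψ G e b) (halt : ∀ x, ψ x x = 0)
    {g : Submodule ℂ (Module.End ℂ H)}
    (hfull : ∀ D : Module.End ℂ H, (∀ x y, ψ (D x) y + ψ x (D y) = 0) →
      (∀ z : Module.End ℂ H, (∀ e ∈ G, e * z = z * e) → D * z = z * D) → D ∈ g)
    (t : T) (i j : I t) : up b t i j ∈ g := by
  refine hfull _ (up_skew A halt t i j) fun z hz => ?_
  rw [up_eq, add_mul, mul_add, el_comm A _ _ _ _ _ z hz, el_comm A _ _ _ _ _ z hz]

theorem Adapted.pm_eq (A : Adapted ψ G e b) : pm b = 1 - e := by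
  refine b.ext fun α => ?_
  obtain ⟨t', i', s', δ⟩ := α
  have h : pm b = ∑ t : T, ∑ i : I t, el b t i i false false := rfl
  rw [h]
  simp only [LinearMap.sum_apply, LinearMap.sub_apply, Module.End.one_apply]
  rw [Finset.sum_eq_single t', Finset.sum_eq_single i']
  · rw [el_eq]
    cases δ with
    | true => rw [A.e_true, sub_self, if_neg]; simp
    | false => rw [A.e_false, sub_zero, if_pos ⟨rfl, rfl⟩]
  · intro i _ hi
    rw [el_eq, if_neg]
    exact fun h => hi h.1.symm
  · intro h; exact absurd (Finset.mem_univ _) h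
  · intro t _ ht
    refine Finset.sum_eq_zero fun i _ => el_ne _ _ _ _ _ _ _ (Ne.symm ht) _ _ _
  · intro h; exact absurd (Finset.mem_univ _) h

/-- the operator `b ⟨t, i, s, ε⟩ ↦ b ⟨t, i, s', ε⟩`, for all `i` and `ε` -/
private noncomputable def sw (b : Module.Basis (Idx I S) ℂ H) (t : T) (s s' : S t) :
    Module.End ℂ H :=
  ∑ i : I t, ((b.coord ⟨t, i, s, true⟩).smulRight (b ⟨t, i, s', true⟩) +
    (b.coord ⟨t, i, s, false⟩).smulRight (b ⟨t, i, s', false⟩))

private theorem sw_ne (b : Module.Basis (Idx I S) ℂ H) (t : T) (s s' : S t)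
    (t' : T) (h : t' ≠ t) (i₁ : I t') (s₁ : S t') (δ : Bool) :
    sw b t s s' (b ⟨t', i₁, s₁, δ⟩) = 0 := by
  simp only [sw, LinearMap.sum_apply, LinearMap.add_apply, LinearMap.smulRight_apply]
  refine Finset.sum_eq_zero fun i _ => ?_
  rw [coord_self, if_neg, coord_self, if_neg, zero_smul, zero_smul, add_zero]
  · intro h'
    exact h (congrArg Sigma.fst h')
  · intro h'
    exact h (congrArg Sigma.fst h')

private theorem sw_eq (b : Module.Basis (Idx I S) ℂ H) (t : T) (s s' : S t)
    (i₁ : I t) (s₁ : S t) (δ : Bool) :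
    sw b t s s' (b ⟨t, i₁, s₁, δ⟩) = if s₁ = s then b ⟨t, i₁, s', δ⟩ else 0 := by
  simp only [sw, LinearMap.sum_apply, LinearMap.add_apply, LinearMap.smulRight_apply]
  rw [Finset.sum_eq_single i₁]
  · rw [coord_self, coord_self]
    by_cases h : s₁ = s
    · subst h
      cases δ <;> simp
    · rw [if_neg h, if_neg, if_neg, zero_smul, zero_smul, add_zero]
      · intro h'
        have h1 := eq_of_heq (Sigma.mk.inj h').2
        simp only [Prod.mk.injEq] at h1
        exact h h1.2.1
      · intro h'
        have h1 := eq_of_heq (Sigma.mk.inj h').2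
        simp only [Prod.mk.injEq] at h1
        exact h h1.2.1
  · intro i _ hi
    rw [coord_self, coord_self, if_neg, if_neg, zero_smul, zero_smul, add_zero]
    · intro h'
      have h1 := eq_of_heq (Sigma.mk.inj h').2
      simp only [Prod.mk.injEq] at h1
      exact hi h1.1.symm
    · intro h'
      have h1 := eq_of_heq (Sigma.mk.inj h').2
      simp only [Prod.mk.injEq] at h1
      exact hi h1.1.symm
  · intro h
    exact absurd (Finset.mem_univ _) h

private theorem sw_comm (A : Adapted ψ G e b) (t : T) (s s' : S t) (x : Module.End ℂ H)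
    (hx : x ∈ G) (v : H) : sw b t s s' (x v) = x (sw b t s s' v) := by
  have h : sw b t s s' * x = x * sw b t s s' := by
    refine b.ext fun α => ?_
    obtain ⟨t', i₁, s₁, δ⟩ := α
    obtain ⟨m, hm⟩ := A.mul x hx t'
    simp only [Module.End.mul_apply]
    rw [hm, map_sum]
    simp only [map_smul]
    by_cases h : t' = t
    · subst h
      simp only [sw_eq]
      by_cases h2 : s₁ = s
      · simp only [if_pos h2, hm]
      · simp only [if_neg h2, smul_zero, Finset.sum_const_zero, map_zero]
    · simp only [sw_ne b t s s' t' h, smul_zero, Finset.sum_const_zero, map_zero]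
  exact LinearMap.congr_fun h v

private theorem th_eq (A : Adapted ψ G e b) (halt : ∀ x, ψ x x = 0) (t : T) (s s' : S t)
    (x y : H) : th b t s s' x y = ψ (sw b t s s' x) y + ψ (sw b t s' s x) y := by
  simp only [th, sw, LinearMap.sum_apply, LinearMap.add_apply, LinearMap.sub_apply,
    LinearMap.smulRight_apply, map_sum, map_add, map_smul, LinearMap.smul_apply, smul_eq_mul,
    psi_left_true A, psi_left_false A halt]
  rw [← Finset.sum_add_distrib]
  refine Finset.sum_congr rfl fun i _ => ?_
  ring

/-- The invariant forms are invariant. -/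
theorem Adapted.th_inv (A : Adapted ψ G e b) (halt : ∀ x, ψ x x = 0)
    (hψ : ∀ e ∈ G, ∀ x y, ψ (e x) y + ψ x (e y) = ψ x y) (t : T) (s s' : S t) :
    ∀ g ∈ G, ∀ x y, th b t s s' (g x) y + th b t s s' x (g y) = th b t s s' x y := by
  intro g hg x y
  rw [th_eq A halt, th_eq A halt, th_eq A halt, sw_comm A _ _ _ g hg, sw_comm A _ _ _ g hg,
    ← hψ g hg (sw b t s s' x) y, ← hψ g hg (sw b t s' s x) y]
  ring

theorem th_alt (b : Module.Basis (Idx I S) ℂ H) (t : T) (s s' : S t) (x : H) :
    th b t s s' x x = 0 := by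
  simp only [th, LinearMap.sum_apply, LinearMap.add_apply, LinearMap.sub_apply,
    LinearMap.smulRight_apply, LinearMap.smul_apply, smul_eq_mul]
  refine Finset.sum_eq_zero fun i _ => ?_
  ring

end Pool.Agent.GHCFull
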