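import Pool.Agent.GHCFull.S1a

/-!
# Self-dual subspaces and elements of odd rank
-/

set_option autoImplicit false

universe u

namespace Pool.Agent.GHCFull

open Pool.Agent.OddRank

variable {H : Type u} [AddCommGroup H] [Module ℂ H] [FiniteDimensional ℂ H]

/-- A skew endomorphism with respect to a symmetric form has even rank. -/
theorem even_of_symm {W : Submodule ℂ H} {φ : H →ₗ[ℂ] H →ₗ[ℂ] ℂ}
    (hnd : NdOn φ W) (hsymm : ∀ x ∈ W, ∀ y ∈ W, φ x y = φ y x) {N : Module.End ℂ H}
    (hNW : ∀ x ∈ W, N x ∈ W) (hN : ∀ x ∈ W, ∀ y ∈ W, φ (N x) y + φ x (N y) = 0) :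
    Even (Module.finrank ℂ (W.map N)) := by
  classical
  set f : W →ₗ[ℂ] H := N ∘ₗ W.subtype with hf
  have hfa : ∀ x : W, f x = N x := fun x => rfl
  have hrange : LinearMap.range f = W.map N := by
    rw [hf, LinearMap.range_comp, Submodule.range_subtype]
  obtain ⟨C, hC⟩ := Submodule.exists_isCompl (LinearMap.ker f)
  have hfin : Module.finrank ℂ C = Module.finrank ℂ (W.map N) := by
    have h1 := LinearMap.finrank_range_add_finrank_ker f
    have h2 := Submodule.finrank_add_eq_of_isCompl hC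
    rw [hrange] at h1
    omega
  rw [← hfin]
  by_contra hodd
  rw [Nat.not_even_iff_odd] at hodd
  set b := Module.finBasis ℂ C with hb
  set M : Matrix (Fin (Module.finrank ℂ C)) (Fin (Module.finrank ℂ C)) ℂ :=
    Matrix.of fun i j => φ (N ((b i : W) : H)) ((b j : W) : H) with hM
  have hMa : ∀ i j, M i j = φ (N ((b i : W) : H)) ((b j : W) : H) := fun i j => rfl
  have hskew : M.transpose = -M := by
    ext i j
    rw [Matrix.transpose_apply, Matrix.neg_apply, hMa, hMa]
    have h1 := hN (b j : W) (b j : W).2 (b i : W) (b i : W).2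
    have h2 := hsymm (b j : W) (b j : W).2 (N ((b i : W) : H)) (hNW _ (b i : W).2)
    linear_combination h1 - h2
  have hdet : M.det = 0 := by
    have h1 := Matrix.det_transpose M
    rw [hskew, Matrix.det_neg, Fintype.card_fin, hodd.neg_one_pow] at h1
    linear_combination (-(1 / 2) : ℂ) * h1
  obtain ⟨v, hv0, hv⟩ := Matrix.exists_vecMul_eq_zero_iff.2 hdet
  set x : C := ∑ i, v i • b i with hx
  have hx0 : x ≠ 0 := by
    intro h
    apply hv0
    funext i
    have h2 := Fintype.linearIndependent_iff.1 b.linearIndependent v (by rw [← hx, h]) i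
    rw [h2, Pi.zero_apply]
  have hxC : ∀ c : C, φ (N ((x : W) : H)) ((c : W) : H) = 0 := by
    intro c
    have h1 : ∀ j, φ (N ((x : W) : H)) ((b j : W) : H) = 0 := by
      intro j
      have h2 := congrFun hv j
      rw [Matrix.vecMul, Pi.zero_apply] at h2
      rw [← h2, dotProduct, hx]
      simp only [Submodule.coe_sum, Submodule.coe_smul, map_sum, map_smul,
        LinearMap.sum_apply, LinearMap.smul_apply, smul_eq_mul, hMa]
    have h3 : (φ (N ((x : W) : H))) ∘ₗ W.subtype ∘ₗ C.subtype = 0 := by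
      apply b.ext
      intro j
      exact h1 j
    exact LinearMap.congr_fun h3 c
  have hNx : N ((x : W) : H) = 0 := by
    apply hnd _ (hNW _ (x : W).2)
    intro y hy
    have h1 : (⟨y, hy⟩ : W) ∈ LinearMap.ker f ⊔ C := by rw [hC.sup_eq_top]; exact Submodule.mem_top
    obtain ⟨k, hk, c, hc, hkc⟩ := Submodule.mem_sup.1 h1
    have h2 : y = (k : H) + (c : H) := by
      have := congrArg (fun z : W => (z : H)) hkc
      simpa using this.symm
    rw [h2, map_add, hxC ⟨c, hc⟩, add_zero]
    have h3 := hN ((x : W) : H) (x : W).2 (k : H) k.2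
    rw [LinearMap.mem_ker, hfa] at hk
    rw [hk, map_zero, add_zero] at h3
    exact h3
  have h4 : (x : W) ∈ LinearMap.ker f ⊓ C := ⟨LinearMap.mem_ker.2 hNx, x.2⟩
  rw [hC.inf_eq_bot, Submodule.mem_bot] at h4
  exact hx0 (Subtype.ext h4)

/-- A self-dual irreducible subspace is symplectic if the Lie algebra contains an element of square
zero which has odd rank on it. -/
theorem formOn_of_odd {G : Set (Module.End ℂ H)} {W : Submodule ℂ H} (hW : Irreducible G W)
    {φ : H →ₗ[ℂ] H →ₗ[ℂ] ℂ} (hnd : NdOn φ W)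
    (hφ : ∀ e ∈ G, ∀ x ∈ W, ∀ y ∈ W, φ (e x) y + φ x (e y) = φ x y) {N : Module.End ℂ H}
    (hN : N ∈ lieSpan G) (hNN : N * N = 0) (hodd : Odd (Module.finrank ℂ (W.map N))) :
    ∃ φ', FormOn G W φ' := by
  have hflip : ∀ e ∈ G, ∀ x ∈ W, ∀ y ∈ W, φ.flip (e x) y + φ.flip x (e y) = φ.flip x y := by
    intro e he x hx y hy
    simp only [LinearMap.flip_apply]
    rw [add_comm]
    exact hφ e he y hy x hx
  obtain ⟨c, hc⟩ := form_unique hW hnd hφ hflip
  simp only [LinearMap.flip_apply] at hc
  -- the form is nonzero on `W`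
  obtain ⟨w, hw, hw0⟩ := (Submodule.ne_bot_iff W).1 hW.2.1
  obtain ⟨z, hz, hwz⟩ : ∃ z ∈ W, φ w z ≠ 0 := by
    by_contra hcon
    push Not at hcon
    exact hw0 (hnd w hw hcon)
  have hc2 : c * c = 1 := by
    have h1 := hc w hw z hz
    have h2 := hc z hz w hw
    have h3 : (c * c - 1) * φ w z = 0 := by linear_combination -h2 - c * h1
    rcases mul_eq_zero.1 h3 with h | h
    · linear_combination h
    · exact absurd h hwz
  have hc1 : c = 1 ∨ c = -1 := by
    have : (c - 1) * (c + 1) = 0 := by linear_combination hc2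
    rcases mul_eq_zero.1 this with h | h
    · left; linear_combination h
    · right; linear_combination h
  rcases hc1 with rfl | rfl
  · exfalso
    have hsymm : ∀ x ∈ W, ∀ y ∈ W, φ x y = φ y x := by
      intro x hx y hy
      rw [hc x hx y hy, one_mul]
    obtain ⟨κ, hκ⟩ := simil_span (α := Unit) (U := fun _ => W) (φ := fun _ => φ)
      (fun _ => hW.1) (fun e he _ x hx y hy => hφ e he x hx y hy) N hN
    have hκ' : ∀ u ∈ W, ∀ v ∈ W, φ (N u) v + φ u (N v) = κ * φ u v := hκ ()
    have hNW : ∀ x ∈ W, N x ∈ W := stable_span hW.1 N hN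
    have hNN' : ∀ x, N (N x) = 0 := fun x => LinearMap.congr_fun hNN x
    have hκ0 : κ = 0 := by
      by_contra hκ0
      have key : ∀ u ∈ W, ∀ v ∈ W, φ (N u) v = φ u (N v) := by
        intro u hu v hv
        have h1 := hκ' (N u) (hNW u hu) v hv
        have h2 := hκ' u hu (N v) (hNW v hv)
        rw [hNN', map_zero, LinearMap.zero_apply, zero_add] at h1
        rw [hNN', map_zero, add_zero] at h2
        have h3 : κ * φ (N u) v = κ * φ u (N v) := by rw [← h1, ← h2]
        exact mul_left_cancel₀ hκ0 h3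
      have key2 : ∀ u ∈ W, ∀ v ∈ W, φ (N u) v = κ / 2 * φ u v := by
        intro u hu v hv
        have h1 := hκ' u hu v hv
        rw [← key u hu v hv] at h1
        linear_combination (1 / 2 : ℂ) * h1
      have h4 := key2 (N w) (hNW w hw) z hz
      rw [hNN', map_zero, LinearMap.zero_apply, key2 w hw z hz] at h4
      have h5 : κ / 2 ≠ 0 := div_ne_zero hκ0 two_ne_zero
      exact (mul_ne_zero h5 (mul_ne_zero h5 hwz)) h4.symm
    have heven := even_of_symm hnd hsymm hNW (fun x hx y hy => by
      rw [hκ' x hx y hy, hκ0, zero_mul])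
    exact (Nat.not_even_iff_odd.2 hodd) heven
  · refine ⟨φ, fun x hx => ?_, hnd, hφ⟩
    have h1 := hc x hx x hx
    linear_combination (1 / 2 : ℂ) * h1

end Pool.Agent.GHCFull
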