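import Pool.Agent.GHCFull.Alt1

/-!
# Derivations of alternating forms
-/

set_option autoImplicit false

universe u

namespace Pool.Agent.GHCFull

variable {H : Type u} [AddCommGroup H] [Module ℂ H]

/-- Derivations in terms of a basis. -/
theorem der_eq_sum {K : Type*} [Fintype K] (b : Module.Basis K ℂ H) (D : H →ₗ[ℂ] H) (k : ℕ)
    (ω : AForm H (k + 1)) : der D (k + 1) ω = ∑ β, wd (b.coord β) k (ct (D (b β)) k ω) := by
  classical
  have h1 : ω.curryLeft ∘ₗ D =
      ∑ β, (b.coord β).smulRight (ω.curryLeft (D (b β))) := by
    refine b.ext fun γ => ?_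
    rw [LinearMap.comp_apply, LinearMap.sum_apply]
    rw [Finset.sum_eq_single γ]
    · simp
    · intro β _ hβ
      simp [LinearMap.smulRight_apply, Finsupp.single_eq_of_ne hβ]
    · intro h
      exact (h (Finset.mem_univ _)).elim
  change AlternatingMap.alternatizeUncurryFin (ω.curryLeft ∘ₗ D) =
    ∑ β, AlternatingMap.alternatizeUncurryFin ((b.coord β).smulRight (ω.curryLeft (D (b β))))
  rw [h1]
  exact map_sum (AlternatingMap.alternatizeUncurryFinLM (R := ℂ) (M := H) (N := ℂ) (n := k)) _ _

theorem der_add (D E : H →ₗ[ℂ] H) (k : ℕ) (ω : AForm H k) :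
    der (D + E) k ω = der D k ω + der E k ω := by
  ext v
  rw [AlternatingMap.add_apply, der_apply, der_apply, der_apply, ← Finset.sum_add_distrib]
  refine Finset.sum_congr rfl fun i _ => ?_
  rw [LinearMap.add_apply, AlternatingMap.map_update_add]

theorem der_smul (a : ℂ) (D : H →ₗ[ℂ] H) (k : ℕ) (ω : AForm H k) :
    der (a • D) k ω = a • der D k ω := by
  ext v
  rw [AlternatingMap.smul_apply, der_apply, der_apply, Finset.smul_sum]
  refine Finset.sum_congr rfl fun i _ => ?_
  rw [LinearMap.smul_apply, AlternatingMap.map_update_smul]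

theorem der_one (k : ℕ) (ω : AForm H k) : der 1 k ω = (k : ℂ) • ω := by
  ext v
  rw [AlternatingMap.smul_apply, der_apply]
  have h : ∀ i : Fin k, ω (Function.update v i ((1 : H →ₗ[ℂ] H) (v i))) = ω v := fun i => by
    rw [Module.End.one_apply, Function.update_eq_self]
  rw [Finset.sum_congr rfl fun i _ => h i, Finset.sum_const, Finset.card_univ, Fintype.card_fin,
    nsmul_eq_mul, smul_eq_mul]

/-- The commutator of two derivations. -/
theorem der_der (D E : Module.End ℂ H) (k : ℕ) (ω : AForm H k) :
    der (D * E - E * D) k ω = der E k (der D k ω) - der D k (der E k ω) := by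
  ext v
  rw [AlternatingMap.sub_apply, der_apply, der_apply, der_apply]
  have h1 : ∑ i : Fin k, (der D k ω) (Function.update v i (E (v i))) =
      ∑ i : Fin k, ∑ j : Fin k, ω (Function.update (Function.update v i (E (v i))) j
        (D (Function.update v i (E (v i)) j))) :=
    Finset.sum_congr rfl fun i _ => der_apply _ _ _ _
  have h2 : ∑ i : Fin k, (der E k ω) (Function.update v i (D (v i))) =
      ∑ i : Fin k, ∑ j : Fin k, ω (Function.update (Function.update v j (D (v j))) i
        (E (Function.update v j (D (v j)) i))) := by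
    rw [Finset.sum_comm]
    exact Finset.sum_congr rfl fun i _ => der_apply _ _ _ _
  rw [h1, h2, ← Finset.sum_sub_distrib]
  refine Finset.sum_congr rfl fun i _ => ?_
  rw [← Finset.sum_sub_distrib, Finset.sum_eq_single i]
  · rw [Function.update_self, Function.update_self, Function.update_idem, Function.update_idem,
      LinearMap.sub_apply, AlternatingMap.map_update_sub, Module.End.mul_apply,
      Module.End.mul_apply]
  · intro j _ hj
    rw [Function.update_of_ne hj, Function.update_of_ne hj.symm, Function.update_comm hj,
      sub_self]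
  · intro h
    exact (h (Finset.mem_univ _)).elim

end Pool.Agent.GHCFull
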