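import Pool.Agent.GHCFull.Alt

/-!
# Anticommutation relations for alternating forms
-/

set_option autoImplicit false

universe u

namespace Pool.Agent.GHCFull

variable {H : Type u} [AddCommGroup H] [Module ℂ H]

theorem wd_apply (ξ : H →ₗ[ℂ] ℂ) (k : ℕ) (ω : AForm H k) (v : Fin (k + 1) → H) :
    wd ξ k ω v = ∑ i : Fin (k + 1), (-1 : ℂ) ^ (i : ℕ) * (ξ (v i) * ω (i.removeNth v)) := by
  change AlternatingMap.alternatizeUncurryFin (ξ.smulRight ω) v = _
  rw [AlternatingMap.alternatizeUncurryFin_apply]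
  refine Finset.sum_congr rfl fun i _ => ?_
  rw [LinearMap.smulRight_apply, AlternatingMap.smul_apply, smul_eq_mul]
  rw [zsmul_eq_mul]
  push_cast
  rfl

theorem der_apply (D : H →ₗ[ℂ] H) (k : ℕ) (ω : AForm H k) (v : Fin k → H) :
    der D k ω v = ∑ i : Fin k, ω (Function.update v i (D (v i))) := by
  cases k with
  | zero => simp [der]
  | succ k =>
    change AlternatingMap.alternatizeUncurryFin (ω.curryLeft ∘ₗ D) v = _
    rw [AlternatingMap.alternatizeUncurryFin_apply]
    refine Finset.sum_congr rfl fun i _ => ?_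
    rw [← Fin.insertNth_removeNth, AlternatingMap.map_insertNth]
    rfl

/-- The canonical anticommutation relation. -/
theorem ct_wd_zero (ξ : H →ₗ[ℂ] ℂ) (x : H) (ω : AForm H 0) : ct x 0 (wd ξ 0 ω) = ξ x • ω := by
  ext v
  rw [ct_apply, wd_apply]
  rw [Fin.sum_univ_one]
  rw [AlternatingMap.smul_apply, smul_eq_mul]
  simp only [Fin.val_zero, pow_zero, one_mul, Matrix.cons_val_zero]
  congr 2

/-- The canonical anticommutation relation. -/
theorem ct_wd (ξ : H →ₗ[ℂ] ℂ) (x : H) (k : ℕ) (ω : AForm H (k + 1)) :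
    ct x (k + 1) (wd ξ (k + 1) ω) = ξ x • ω - wd ξ k (ct x k ω) := by
  ext v
  rw [ct_apply, wd_apply, AlternatingMap.sub_apply, wd_apply, Fin.sum_univ_succ,
    AlternatingMap.smul_apply, smul_eq_mul, sub_eq_add_neg, ← Finset.sum_neg_distrib]
  congr 1
  · rw [Fin.val_zero, pow_zero, one_mul, Matrix.cons_val_zero, Fin.removeNth_zero]
    rfl
  · refine Finset.sum_congr rfl fun i _ => ?_
    rw [ct_apply, Matrix.cons_val_succ, Fin.val_succ, pow_succ]
    have h1 : (i.succ).removeNth (Matrix.vecCons x v) = Matrix.vecCons x (i.removeNth v) := by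
      funext j
      refine Fin.cases ?_ (fun j => ?_) j
      · simp [Fin.removeNth]
      · simp [Fin.removeNth]
    rw [h1]
    ring

theorem ct_ct (x y : H) (k : ℕ) (ω : AForm H (k + 2)) :
    ct x k (ct y (k + 1) ω) = -ct y k (ct x (k + 1) ω) := by
  have key : ∀ z : H, ct z k (ct z (k + 1) ω) = 0 := by
    intro z
    ext v
    rw [ct_apply, ct_apply]
    refine ω.map_eq_zero_of_eq _ (i := 0) (j := 1) ?_ (by simp)
    rfl
  have h := key (x + y)
  rw [ct_add, ct_add, map_add, map_add, key x, key y, zero_add, add_zero] at h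
  exact eq_neg_of_add_eq_zero_left h

end Pool.Agent.GHCFull
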