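import Mathlib

/-!
# Operators on alternating forms
-/

set_option autoImplicit false

universe u

namespace Pool.Agent.GHCFull

variable {H : Type u} [AddCommGroup H] [Module ℂ H]

/-- Complex multilinear alternating forms of degree `k`. -/
abbrev AForm (H : Type u) [AddCommGroup H] [Module ℂ H] (k : ℕ) : Type u := H [⋀^Fin k]→ₗ[ℂ] ℂ

/-- The product with a covector. -/
noncomputable def wd (ξ : H →ₗ[ℂ] ℂ) (k : ℕ) : AForm H k →ₗ[ℂ] AForm H (k + 1) where
  toFun ω := AlternatingMap.alternatizeUncurryFin (ξ.smulRight ω)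
  map_add' ω ω' := by
    rw [← AlternatingMap.alternatizeUncurryFin_add]
    congr 1
    ext x v
    simp
  map_smul' c ω := by
    rw [RingHom.id_apply, ← AlternatingMap.alternatizeUncurryFin_smul]
    congr 1
    ext x v
    simp [mul_left_comm]

/-- The contraction with a vector. -/
noncomputable def ct (x : H) (k : ℕ) : AForm H (k + 1) →ₗ[ℂ] AForm H k where
  toFun ω := ω.curryLeft x
  map_add' ω ω' := by rw [AlternatingMap.curryLeft_add]; rfl
  map_smul' c ω := by rw [AlternatingMap.curryLeft_smul]; rfl

/-- The derivation defined by an endomorphism. -/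
noncomputable def der (D : H →ₗ[ℂ] H) : (k : ℕ) → AForm H k →ₗ[ℂ] AForm H k
  | 0 => 0
  | k + 1 =>
    { toFun := fun ω => AlternatingMap.alternatizeUncurryFin (ω.curryLeft ∘ₗ D)
      map_add' := fun ω ω' => by
        rw [← AlternatingMap.alternatizeUncurryFin_add, AlternatingMap.curryLeft_add]
        rfl
      map_smul' := fun c ω => by
        rw [RingHom.id_apply, ← AlternatingMap.alternatizeUncurryFin_smul,
          AlternatingMap.curryLeft_smul]
        rfl }

theorem ct_apply (x : H) (k : ℕ) (ω : AForm H (k + 1)) (v : Fin k → H) :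
    ct x k ω v = ω (Matrix.vecCons x v) := rfl

theorem ct_add (x y : H) (k : ℕ) (ω : AForm H (k + 1)) : ct (x + y) k ω = ct x k ω + ct y k ω := by
  simp [ct]

theorem ct_smul (a : ℂ) (x : H) (k : ℕ) (ω : AForm H (k + 1)) : ct (a • x) k ω = a • ct x k ω := by
  simp [ct]

end Pool.Agent.GHCFull
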