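import Pool.Agent.GHCFull.C2

/-!
# Stable subspaces with positive eigenvalues
-/

set_option autoImplicit false

namespace Pool.Agent.GHCFull

open scoped InnerProductSpace

namespace Fock

/-- A stable subspace killed by a product of the `A - β` contains an eigenvector. -/
private lemma ev_exists {V : Type*} [AddCommGroup V] [Module ℂ V] (A : Module.End ℂ V)
    (W : Submodule ℂ V) (hW : ∀ w ∈ W, A w ∈ W) (l : List ℕ) (w : V) (hw : w ∈ W) (hw0 : w ≠ 0)
    (h : ((l.map fun β : ℕ => (A - (β : ℂ) • 1 : Module.End ℂ V)).prod : Module.End ℂ V) w = 0) :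
    ∃ β ∈ l, ∃ v ∈ W, v ≠ 0 ∧ A v = (β : ℂ) • v := by
  induction l with
  | nil =>
    exfalso
    simp only [List.map_nil, List.prod_nil, Module.End.one_apply] at h
    exact hw0 h
  | cons β l ih =>
    have hmem : ∀ (m : List ℕ), ((m.map fun β : ℕ =>
        (A - (β : ℂ) • 1 : Module.End ℂ V)).prod : Module.End ℂ V) w ∈ W := by
      intro m
      induction m with
      | nil => simpa using hw
      | cons γ m ihm =>
        rw [List.map_cons, List.prod_cons, Module.End.mul_apply]
        set y := ((m.map fun β : ℕ =>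
          (A - (β : ℂ) • 1 : Module.End ℂ V)).prod : Module.End ℂ V) w
        simp only [LinearMap.sub_apply, LinearMap.smul_apply, Module.End.one_apply]
        exact W.sub_mem (hW _ ihm) (W.smul_mem _ ihm)
    by_cases h0 : ((l.map fun β : ℕ =>
        (A - (β : ℂ) • 1 : Module.End ℂ V)).prod : Module.End ℂ V) w = 0
    · obtain ⟨γ, hγ, hv⟩ := ih h0
      exact ⟨γ, List.mem_cons_of_mem _ hγ, hv⟩
    · refine ⟨β, List.mem_cons_self, _, hmem l, h0, ?_⟩
      rw [List.map_cons, List.prod_cons, Module.End.mul_apply] at h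
      set y := ((l.map fun β : ℕ =>
          (A - (β : ℂ) • 1 : Module.End ℂ V)).prod : Module.End ℂ V) w
      simp only [LinearMap.sub_apply, LinearMap.smul_apply, Module.End.one_apply] at h
      exact sub_eq_zero.1 h

private lemma ev_prod {V : Type*} [AddCommGroup V] [Module ℂ V] (A : Module.End ℂ V)
    (l : List ℕ) (v : V) (n : ℂ) (h : A v = n • v) :
    ((l.map fun β : ℕ => (A - (β : ℂ) • 1 : Module.End ℂ V)).prod : Module.End ℂ V) v =
      ((l.map fun β : ℕ => n - (β : ℂ)).prod) • v := by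
  induction l with
  | nil => simp
  | cons β l ih =>
    rw [List.map_cons, List.prod_cons, Module.End.mul_apply, ih, map_smul, List.map_cons,
      List.prod_cons]
    simp only [LinearMap.sub_apply, LinearMap.smul_apply, Module.End.one_apply]
    rw [h, ← sub_smul, smul_smul, mul_comm]

private lemma ev_mem {V : Type*} [AddCommGroup V] [Module ℂ V] (A : Module.End ℂ V)
    (l : List ℕ) (v : V) (hv : v ≠ 0) (n : ℕ) (h : A v = (n : ℂ) • v)
    (h0 : ((l.map fun β : ℕ => (A - (β : ℂ) • 1 : Module.End ℂ V)).prod : Module.End ℂ V) v = 0) :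
    n ∈ l := by
  rw [ev_prod A l v n h, smul_eq_zero] at h0
  rcases h0 with h0 | h0
  · rw [List.prod_eq_zero_iff, List.mem_map] at h0
    obtain ⟨β, hβ, he⟩ := h0
    have : n = β := by exact_mod_cast sub_eq_zero.1 he
    exact this ▸ hβ
  · exact absurd h0 hv

variable {F : ℕ → Type*} [∀ k, NormedAddCommGroup (F k)] [∀ k, InnerProductSpace ℂ (F k)]
  {T : Type} [Fintype T] [DecidableEq T] {I S : T → Type} [∀ t, Fintype (I t)]
  [∀ t, DecidableEq (I t)] [∀ t, Fintype (S t)] [∀ t, DecidableEq (S t)] (Φ : Fock F (Idx I S))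

/-- A stable subspace on which the counting operator has positive eigenvalues is zero, if all
vectors killed by the raising operators are killed by the counting operator. -/
theorem eq_bot (k : ℕ) (W : Submodule ℂ (F k)) (h : Φ.Stab W) (l : List ℕ) (hl : ∀ β ∈ l, 1 ≤ β)
    (hE : Φ.Eig W l) (hkey : ∀ w ∈ W, (∀ t i j, Φ.X t i j k w = 0) → Φ.N k w = 0) : W = ⊥ := by
  classical
  by_contra hne
  obtain ⟨w, hw, hw0⟩ := Submodule.exists_mem_ne_zero_of_ne_bot hne
  obtain ⟨β₁, _, hβ₁⟩ := ev_exists (Φ.N k) W h.N l w hw hw0 (hE w hw)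
  have hP : ∃ β : ℕ, ∃ v ∈ W, v ≠ 0 ∧ Φ.N k v = (β : ℂ) • v := ⟨β₁, hβ₁⟩
  obtain ⟨v, hv, hv0, hNv⟩ := Nat.find_spec hP
  set β := Nat.find hP with hβ
  have h1 : 1 ≤ β := hl _ (ev_mem (Φ.N k) l v hv0 β hNv (hE v hv))
  have hX : ∀ t i j, Φ.X t i j k v = 0 := by
    intro t i j
    by_contra hne'
    have h2 : Φ.N k (Φ.X t i j k v) = ((β - 1 : ℕ) : ℂ) • Φ.X t i j k v := by
      rw [Φ.N_X, hNv, map_smul, Nat.cast_sub h1, sub_smul, Nat.cast_one, one_smul]
    have h3 : β ≤ β - 1 := Nat.find_min' hP ⟨_, h.X t i j v hv, hne', h2⟩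
    omega
  have h4 := hkey v hv hX
  rw [hNv, smul_eq_zero] at h4
  rcases h4 with h4 | h4
  · have : β = 0 := by exact_mod_cast h4
    omega
  · exact hv0 h4

end Fock

end Pool.Agent.GHCFull
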