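import Pool.Agent.GHCFull.C2

/-!
# Stability of the powers of the ideal
-/

set_option autoImplicit false

namespace Pool.Agent.GHCFull

open scoped InnerProductSpace

namespace Fock

variable {F : ℕ → Type*} [∀ k, NormedAddCommGroup (F k)] [∀ k, InnerProductSpace ℂ (F k)]
  {T : Type} [Fintype T] [DecidableEq T] {I S : T → Type} [∀ t, Fintype (I t)]
  [∀ t, DecidableEq (I t)] [∀ t, Fintype (S t)] [∀ t, DecidableEq (S t)] (Φ : Fock F (Idx I S))

private theorem H2_mem (j k : ℕ) (t : T) (s s' : S t) {w : F k} (hw : w ∈ Φ.Ifil j k) :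
    Φ.L t s s' k w ∈ Φ.Ifil (j + 1) (k + 2) := by
  have h1 : (Φ.Ifil j k).map (Φ.L t s s' k) ≤ Φ.Ifil (j + 1) (k + 2) := by
    show (Φ.Ifil j k).map (Φ.L t s s' k) ≤
      ⨆ t : T, ⨆ s : S t, ⨆ s' : S t, (Φ.Ifil j k).map (Φ.L t s s' k)
    exact le_iSup_of_le t (le_iSup_of_le s (le_iSup_of_le s' le_rfl))
  exact h1 ⟨w, hw, rfl⟩

private theorem H2_le (j k : ℕ) (W : Submodule ℂ (F (k + 2)))
    (h : ∀ (t : T) (s s' : S t) (w : F k), w ∈ Φ.Ifil j k → Φ.L t s s' k w ∈ W) :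
    Φ.Ifil (j + 1) (k + 2) ≤ W := by
  show (⨆ t : T, ⨆ s : S t, ⨆ s' : S t, (Φ.Ifil j k).map (Φ.L t s s' k)) ≤ W
  refine iSup_le fun t => iSup_le fun s => iSup_le fun s' => ?_
  rintro _ ⟨w, hw, rfl⟩
  exact h t s s' w hw

private theorem H2_bot (k : ℕ) : Φ.Stab (⊥ : Submodule ℂ (F k)) := by
  refine ⟨?_, ?_, ?_⟩
  · intro t i j w hw
    rw [Submodule.mem_bot] at hw ⊢
    rw [hw, map_zero]
  · intro t i j w hw
    rw [Submodule.mem_bot] at hw ⊢
    rw [hw, map_zero]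
  · intro w hw
    rw [Submodule.mem_bot] at hw ⊢
    rw [hw, map_zero]

private theorem H2_stab : ∀ j k : ℕ, Φ.Stab (Φ.Ifil j k)
  | 0, _ => ⟨fun _ _ _ _ _ => Submodule.mem_top, fun _ _ _ _ _ => Submodule.mem_top,
      fun _ _ => Submodule.mem_top⟩
  | _ + 1, 0 => H2_bot Φ 0
  | _ + 1, 1 => H2_bot Φ 1
  | j + 1, k + 2 => by
    have ih := H2_stab j k
    refine ⟨?_, ?_, ?_⟩
    · intro t i i' w hw
      refine H2_le Φ j k ((Φ.Ifil (j + 1) (k + 2)).comap (Φ.X t i i' (k + 2))) ?_ hw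
      intro t' s s' v hv
      rw [Submodule.mem_comap, X_L]
      exact H2_mem Φ j k t' s s' (ih.X t i i' v hv)
    · intro t i i' w hw
      refine H2_le Φ j k ((Φ.Ifil (j + 1) (k + 2)).comap (Φ.Y t i i' (k + 2))) ?_ hw
      intro t' s s' v hv
      rw [Submodule.mem_comap, Y_L]
      exact H2_mem Φ j k t' s s' (ih.Y t i i' v hv)
    · intro w hw
      refine H2_le Φ j k ((Φ.Ifil (j + 1) (k + 2)).comap (Φ.N (k + 2))) ?_ hw
      intro t' s s' v hv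
      rw [Submodule.mem_comap, N_L]
      exact Submodule.add_mem _ (H2_mem Φ j k t' s s' (ih.N v hv)) (H2_mem Φ j k t' s s' hv)

/-- The powers of the ideal are stable. -/
theorem stab_Ifil (j k : ℕ) : Φ.Stab (Φ.Ifil j k) := H2_stab Φ j k

private theorem H2_eig {k : ℕ} (t : T) (s s' : S t) (l : List ℕ) (hl : ∀ β ∈ l, 1 ≤ β) :
    ∀ w : F (k + 2), (((l.map (· - 1)).map fun β : ℕ =>
      (Φ.N k - (β : ℂ) • 1 : Module.End ℂ (F k))).prod : Module.End ℂ (F k)) (Φ.Lam t s s' k w) =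
      Φ.Lam t s s' k (((l.map fun β : ℕ => (Φ.N (k + 2) - (β : ℂ) • 1 :
        Module.End ℂ (F (k + 2)))).prod : Module.End ℂ (F (k + 2))) w) := by
  induction l with
  | nil => intro w; rfl
  | cons β l ih =>
    intro w
    have h1 : 1 ≤ β := hl β List.mem_cons_self
    have h2 : ((β - 1 : ℕ) : ℂ) = (β : ℂ) - 1 := by push_cast [h1]; ring
    rw [List.map_cons, List.map_cons, List.prod_cons, List.map_cons, List.prod_cons,
      Module.End.mul_apply, Module.End.mul_apply,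
      ih (fun γ hγ => hl γ (List.mem_cons_of_mem _ hγ)) w]
    set v := ((l.map fun β : ℕ => (Φ.N (k + 2) - (β : ℂ) • 1 :
        Module.End ℂ (F (k + 2)))).prod : Module.End ℂ (F (k + 2))) w
    rw [LinearMap.sub_apply, LinearMap.sub_apply, LinearMap.smul_apply, LinearMap.smul_apply,
      Module.End.one_apply, Module.End.one_apply, N_Lam, h2, map_sub, map_smul]
    module

theorem stab_Lam {k : ℕ} {W : Submodule ℂ (F (k + 2))} (hW : Φ.Stab W) {l : List ℕ}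
    (hl : ∀ β ∈ l, 1 ≤ β) (hE : Φ.Eig W l) (t : T) (s s' : S t) :
    Φ.Stab (W.map (Φ.Lam t s s' k)) ∧ Φ.Eig (W.map (Φ.Lam t s s' k)) (l.map (· - 1)) := by
  refine ⟨⟨?_, ?_, ?_⟩, ?_⟩
  · rintro t' i i' _ ⟨w, hw, rfl⟩
    rw [X_Lam]
    exact ⟨_, hW.X t' i i' w hw, rfl⟩
  · rintro t' i i' _ ⟨w, hw, rfl⟩
    rw [Y_Lam]
    exact ⟨_, hW.Y t' i i' w hw, rfl⟩
  · rintro _ ⟨w, hw, rfl⟩
    rw [N_Lam, ← map_sub]
    exact ⟨_, W.sub_mem (hW.N w hw) hw, rfl⟩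
  · rintro _ ⟨w, hw, rfl⟩
    rw [H2_eig Φ t s s' l hl w, hE w hw, map_zero]

end Fock

end Pool.Agent.GHCFull
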