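import Pool.Agent.GHCFull.C2

/-!
# Projection of stable subspaces
-/

set_option autoImplicit false

namespace Pool.Agent.GHCFull

open scoped InnerProductSpace

namespace Fock

private lemma proj_comm {V : Type*} [NormedAddCommGroup V] [InnerProductSpace ℂ V]
    [FiniteDimensional ℂ V] (U : Submodule ℂ V) (A : V →ₗ[ℂ] V) (hU : ∀ u ∈ U, A u ∈ U)
    (hU' : ∀ v ∈ Uᗮ, A v ∈ Uᗮ) (x : V) :
    Uᗮ.starProjection (A x) = A (Uᗮ.starProjection x) := by
  refine Submodule.eq_starProjection_of_mem_orthogonal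
    (hU' _ (Submodule.starProjection_apply_mem _ _)) ?_
  rw [← map_sub]
  refine Submodule.le_orthogonal_orthogonal U (hU _ ?_)
  have h := Submodule.starProjection_add_starProjection_orthogonal (K := U) x
  have h' : x - Uᗮ.starProjection x = U.starProjection x := by
    rw [sub_eq_iff_eq_add]
    exact h.symm
  rw [h']
  exact Submodule.starProjection_apply_mem _ _

private lemma orth_stab {V : Type*} [NormedAddCommGroup V] [InnerProductSpace ℂ V]
    (U : Submodule ℂ V) (A B : V →ₗ[ℂ] V) (hAB : ∀ x y, ⟪A x, y⟫_ℂ = ⟪x, B y⟫_ℂ)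
    (hU : ∀ u ∈ U, A u ∈ U) : ∀ v ∈ Uᗮ, B v ∈ Uᗮ := by
  intro v hv
  rw [Submodule.mem_orthogonal] at hv ⊢
  intro u hu
  rw [← hAB]
  exact hv _ (hU u hu)

variable {F : ℕ → Type*} [∀ k, NormedAddCommGroup (F k)] [∀ k, InnerProductSpace ℂ (F k)]
  {T : Type} [Fintype T] [DecidableEq T] {I S : T → Type} [∀ t, Fintype (I t)]
  [∀ t, DecidableEq (I t)] [∀ t, Fintype (S t)] [∀ t, DecidableEq (S t)] (Φ : Fock F (Idx I S))

/-- The image of a stable subspace under the projection to the orthogonal complement of a stable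
subspace. -/
theorem stab_proj {k : ℕ} [FiniteDimensional ℂ (F k)] {W U : Submodule ℂ (F k)} (hW : Φ.Stab W)
    (hU : Φ.Stab U) {l : List ℕ} (hE : Φ.Eig W l) :
    ∃ W' : Submodule ℂ (F k), Φ.Stab W' ∧ Φ.Eig W' l ∧ W' ≤ Uᗮ ∧ W ≤ U ⊔ W' := by
  have hYX : ∀ t i j (x y : F k), ⟪Φ.Y t i j k x, y⟫_ℂ = ⟪x, Φ.X t i j k y⟫_ℂ := by
    intro t i j x y
    rw [← inner_conj_symm, ← Φ.X_adj, inner_conj_symm]
  have cX : ∀ t i j x, Uᗮ.starProjection (Φ.X t i j k x) = Φ.X t i j k (Uᗮ.starProjection x) :=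
    fun t i j => proj_comm U _ (hU.X t i j) (orth_stab U _ _ (hYX t i j) (hU.Y t i j))
  have cY : ∀ t i j x, Uᗮ.starProjection (Φ.Y t i j k x) = Φ.Y t i j k (Uᗮ.starProjection x) :=
    fun t i j => proj_comm U _ (hU.Y t i j) (orth_stab U _ _ (Φ.X_adj t i j k) (hU.X t i j))
  have cN : ∀ x, Uᗮ.starProjection (Φ.N k x) = Φ.N k (Uᗮ.starProjection x) :=
    proj_comm U _ hU.N (orth_stab U _ _ (Φ.N_adj k) hU.N)
  have cP : ∀ (m : List ℕ) (x : F k), Uᗮ.starProjection
      (((m.map fun β : ℕ => (Φ.N k - (β : ℂ) • 1 : Module.End ℂ (F k))).prod :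
        Module.End ℂ (F k)) x) =
      ((m.map fun β : ℕ => (Φ.N k - (β : ℂ) • 1 : Module.End ℂ (F k))).prod :
        Module.End ℂ (F k)) (Uᗮ.starProjection x) := by
    intro m x
    induction m with
    | nil => simp
    | cons β m ih =>
      rw [List.map_cons, List.prod_cons, Module.End.mul_apply, Module.End.mul_apply, ← ih]
      simp only [LinearMap.sub_apply, LinearMap.smul_apply, Module.End.one_apply]
      rw [map_sub, map_smul, cN]
  refine ⟨W.map (Uᗮ.starProjection : F k →L[ℂ] F k).toLinearMap, ⟨?_, ?_, ?_⟩, ?_, ?_, ?_⟩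
  · rintro t i j _ ⟨w, hw, rfl⟩
    exact ⟨_, hW.X t i j w hw, cX t i j w⟩
  · rintro t i j _ ⟨w, hw, rfl⟩
    exact ⟨_, hW.Y t i j w hw, cY t i j w⟩
  · rintro _ ⟨w, hw, rfl⟩
    exact ⟨_, hW.N w hw, cN w⟩
  · rintro _ ⟨w, hw, rfl⟩
    have h := cP l w
    rw [hE w hw, map_zero] at h
    exact h.symm
  · rintro _ ⟨w, hw, rfl⟩
    exact Submodule.starProjection_apply_mem _ _
  · intro w hw
    have h := Submodule.starProjection_add_starProjection_orthogonal (K := U) w
    rw [← h]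
    exact Submodule.add_mem_sup (Submodule.starProjection_apply_mem _ _)
      (Submodule.mem_map_of_mem (f := (Uᗮ.starProjection : F k →L[ℂ] F k).toLinearMap) hw)

end Fock

end Pool.Agent.GHCFull
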