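import Pool.Agent.GHCFull.NormId
import Pool.Agent.GHCFull.H1
import Pool.Agent.GHCFull.H2
import Pool.Agent.GHCFull.H3

/-!
# Stable subspaces and the powers of the ideal of the invariant two forms
-/

set_option autoImplicit false

namespace Pool.Agent.GHCFull

open scoped InnerProductSpace

namespace Fock

variable {F : ℕ → Type*} [∀ k, NormedAddCommGroup (F k)] [∀ k, InnerProductSpace ℂ (F k)]
  {T : Type} [Fintype T] [DecidableEq T] {I S : T → Type} [∀ t, Fintype (I t)]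
  [∀ t, DecidableEq (I t)] [∀ t, Fintype (S t)] [∀ t, DecidableEq (S t)] (Φ : Fock F (Idx I S))

theorem eq_bot_zero (W : Submodule ℂ (F 0)) (h : Φ.Stab W) (l : List ℕ) (hl : ∀ β ∈ l, 1 ≤ β)
    (hE : Φ.Eig W l) : W = ⊥ := by
  refine Φ.eq_bot 0 W h l hl hE fun w _ _ => ?_
  simp [N, hop]

theorem eq_bot_one (W : Submodule ℂ (F 1)) (h : Φ.Stab W) (l : List ℕ) (hl : ∀ β ∈ l, 1 ≤ β)
    (hE : Φ.Eig W l) : W = ⊥ := by
  refine Φ.eq_bot 1 W h l hl hE fun w _ hX => ?_
  have h1 : ∀ (t : T) (i : I t) (s : S t), Φ.d ⟨t, i, s, false⟩ 0 w = 0 := fun t =>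
    Φ.key₁ (a := fun i s => ⟨t, i, s, true⟩) (b := fun i s => ⟨t, i, s, false⟩)
      (by intro i s j s' h; simpa using h) (by intro i s j s' h; simpa using h) (by simp) w
      (fun i j => by simpa [X, hop] using hX t i j)
  simp [N, hop, h1]

theorem eq_bot_two (k : ℕ) (W : Submodule ℂ (F (k + 2))) (h : Φ.Stab W) (l : List ℕ)
    (hl : ∀ β ∈ l, 1 ≤ β) (hE : Φ.Eig W l) (hW : ∀ w ∈ W, ∀ t s s', Φ.Lam t s s' k w = 0) :
    W = ⊥ := by
  refine Φ.eq_bot (k + 2) W h l hl hE fun w hw hX => ?_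
  have h1 : ∀ (t : T) (i : I t) (s : S t), Φ.d ⟨t, i, s, false⟩ (k + 1) w = 0 := fun t =>
    Φ.key₂ (a := fun i s => ⟨t, i, s, true⟩) (b := fun i s => ⟨t, i, s, false⟩)
      (by intro i s j s' h; simpa using h) (by intro i s j s' h; simpa using h) (by simp) k w
      (fun i j => by simpa [X, hop] using hX t i j)
      (fun s s' => by simpa [Lam] using hW w hw t s s')
  simp [N, hop, h1]

/-- **Main theorem on stable subspaces of the Fock space.** -/
theorem le_Ifil [∀ k, FiniteDimensional ℂ (F k)] (j k : ℕ) (W : Submodule ℂ (F k))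
    (hW : Φ.Stab W) (l : List ℕ) (hl : ∀ β ∈ l, j ≤ β) (hE : Φ.Eig W l) : W ≤ Φ.Ifil j k := by
  induction j generalizing k l with
  | zero => exact le_top
  | succ j ih =>
    have hl1 : ∀ β ∈ l, 1 ≤ β := fun β hβ => (Nat.succ_le_succ (Nat.zero_le j)).trans (hl β hβ)
    match k with
    | 0 => rw [Φ.eq_bot_zero W hW l hl1 hE]; exact bot_le
    | 1 => rw [Φ.eq_bot_one W hW l hl1 hE]; exact bot_le
    | k + 2 =>
      obtain ⟨W', hW', hE', hle, hsup⟩ := Φ.stab_proj hW (Φ.stab_Ifil (j + 1) (k + 2)) hE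
      suffices hbot : W' = ⊥ by
        rw [hbot, sup_bot_eq] at hsup
        exact hsup
      refine Φ.eq_bot_two k W' hW' l hl1 hE' fun w hw t s s' => ?_
      obtain ⟨h1, h2⟩ := Φ.stab_Lam hW' hl1 hE' t s s'
      have h3 := ih k (W'.map (Φ.Lam t s s' k)) h1 (l.map (· - 1)) (by
        intro β hβ
        obtain ⟨γ, hγ, rfl⟩ := List.mem_map.mp hβ
        have := hl γ hγ
        omega) h2
      have h4 : Φ.Lam t s s' k w ∈ Φ.Ifil j k := h3 (Submodule.mem_map_of_mem hw)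
      have h5 : ⟪Φ.L t s s' k (Φ.Lam t s s' k w), w⟫_ℂ = 0 := by
        refine Submodule.inner_right_of_mem_orthogonal (K := Φ.Ifil (j + 1) (k + 2)) ?_ (hle hw)
        exact Submodule.mem_iSup_of_mem t (Submodule.mem_iSup_of_mem s
          (Submodule.mem_iSup_of_mem s' (Submodule.mem_map_of_mem h4)))
      rw [Φ.L_adj] at h5
      exact inner_self_eq_zero.mp h5

end Fock

end Pool.Agent.GHCFull
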