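import Pool.Agent.GHCFull.Inner
import Pool.Agent.GHCFull.Alt2
import Pool.Agent.GHCFull.Harm

/-!
# Stable subspaces of alternating forms
-/

set_option autoImplicit false

universe u

namespace Pool.Agent.GHCFull

variable {H : Type u} [AddCommGroup H] [Module ℂ H]

private theorem altMain_der_zero (k : ℕ) (ω : AForm H k) : der 0 k ω = 0 := by
  have h := der_smul (0 : ℂ) (0 : H →ₗ[ℂ] H) k ω
  rw [zero_smul, zero_smul] at h
  exact h

private theorem altMain_der_sum {ι : Type*} (s : Finset ι) (D : ι → (H →ₗ[ℂ] H)) (k : ℕ)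
    (ω : AForm H k) : der (∑ i ∈ s, D i) k ω = ∑ i ∈ s, der (D i) k ω := by
  classical
  induction s using Finset.induction_on with
  | empty => rw [Finset.sum_empty, Finset.sum_empty, altMain_der_zero]
  | insert a s ha ih => rw [Finset.sum_insert ha, Finset.sum_insert ha, der_add, ih]

private theorem altMain_hop {K : Type*} [Fintype K] [DecidableEq K] (b : Module.Basis K ℂ H)
    (α β : K) (k : ℕ) (ω : AForm H (k + 1)) :
    der ((b.coord α).smulRight (b β)) (k + 1) ω = wd (b.coord α) k (ct (b β) k ω) := by
  rw [der_eq_sum b, Finset.sum_eq_single α]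
  · rw [LinearMap.smulRight_apply, Module.Basis.coord_apply, Module.Basis.repr_self,
      Finsupp.single_eq_same, one_smul]
  · intro γ _ hγ
    rw [LinearMap.smulRight_apply, Module.Basis.coord_apply, Module.Basis.repr_self,
      Finsupp.single_eq_of_ne (Ne.symm hγ), zero_smul]
    have h0 : ct (0 : H) k ω = 0 := by
      have h := ct_smul (0 : ℂ) (0 : H) k ω
      rw [zero_smul, zero_smul] at h
      exact h
    rw [h0, map_zero]
  · intro h
    exact absurd (Finset.mem_univ _) h

variable {T : Type} [Fintype T] [DecidableEq T] {I S : T → Type} [∀ t, Fintype (I t)]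
  [∀ t, DecidableEq (I t)] [∀ t, Fintype (S t)] [∀ t, DecidableEq (S t)]
  (b : Module.Basis (Idx I S) ℂ H)

/-- **Stable subspaces of alternating forms.** -/
theorem le_Jfil (j k : ℕ) (W : Submodule ℂ (AForm H k))
    (hdn : ∀ t i i', ∀ w ∈ W, der (dn b t i i') k w ∈ W)
    (hup : ∀ t i i', ∀ w ∈ W, der (up b t i i') k w ∈ W) (hpm : ∀ w ∈ W, der (pm b) k w ∈ W)
    (l : List ℕ) (hl : ∀ β ∈ l, j ≤ β)
    (hE : ∀ w ∈ W, ((l.map fun β : ℕ =>
      (der (pm b) k - (β : ℂ) • 1 : Module.End ℂ (AForm H k))).prod :
        Module.End ℂ (AForm H k)) w = 0) : W ≤ Jfil b j k := by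
  classical
  let instN (k : ℕ) : NormedAddCommGroup (AForm H k) :=
    @InnerProductSpace.Core.toNormedAddCommGroup ℂ _ _ _ _ (core b k)
  let instI (k : ℕ) : InnerProductSpace ℂ (AForm H k) :=
    InnerProductSpace.ofCore (core b k).toCore
  have : FiniteDimensional ℂ H := Module.Finite.of_basis b
  have (k : ℕ) : FiniteDimensional ℂ (AForm H k) := finite_aform k
  have hhop : ∀ (α β : Idx I S) (k : ℕ) (w : AForm H k),
      (altFock b).hop α β k w = der ((b.coord α).smulRight (b β)) k w := by
    intro α β k w
    cases k with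
    | zero => rfl
    | succ k => exact (altMain_hop b α β k w).symm
  have hX : ∀ t i i' (w : AForm H k), (altFock b).X t i i' k w = der (dn b t i i') k w := by
    intro t i i' w
    unfold dn
    rw [altMain_der_sum]
    unfold Fock.X
    rw [LinearMap.sum_apply]
    refine Finset.sum_congr rfl fun s _ => ?_
    rw [LinearMap.add_apply, der_add, hhop, hhop]
  have hY : ∀ t i i' (w : AForm H k), (altFock b).Y t i i' k w = der (up b t i i') k w := by
    intro t i i' w
    unfold up
    rw [altMain_der_sum]
    unfold Fock.Y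
    rw [LinearMap.sum_apply]
    refine Finset.sum_congr rfl fun s _ => ?_
    rw [LinearMap.add_apply, der_add, hhop, hhop]
  have hN : ∀ (w : AForm H k), (altFock b).N k w = der (pm b) k w := by
    intro w
    unfold pm
    rw [altMain_der_sum]
    unfold Fock.N
    rw [LinearMap.sum_apply]
    refine Finset.sum_congr rfl fun t _ => ?_
    rw [altMain_der_sum, LinearMap.sum_apply]
    refine Finset.sum_congr rfl fun i _ => ?_
    rw [altMain_der_sum, LinearMap.sum_apply]
    refine Finset.sum_congr rfl fun s _ => ?_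
    rw [hhop]
  have hNe : (altFock b).N k = (der (pm b) k : Module.End ℂ (AForm H k)) :=
    LinearMap.ext hN
  have hIJ : ∀ (j k : ℕ), (altFock b).Ifil j k = Jfil b j k := by
    intro j
    induction j with
    | zero => intro k; rfl
    | succ j ih =>
      intro k
      match k with
      | 0 => rfl
      | 1 => rfl
      | k + 2 =>
        unfold Jfil Fock.Ifil
        rw [ih]
        rfl
  rw [← hIJ]
  refine (altFock b).le_Ifil j k W ⟨?_, ?_, ?_⟩ l hl ?_
  · intro t i i' w hw
    rw [hX]
    exact hdn t i i' w hw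
  · intro t i i' w hw
    rw [hY]
    exact hup t i i' w hw
  · intro w hw
    rw [hN]
    exact hpm w hw
  · intro w hw
    rw [hNe]
    exact hE w hw

end Pool.Agent.GHCFull
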