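import Pool.Agent.GHCFull.Fock

/-!
# Adjoints and commutation relations of the operators `c α ∘ d β`
-/

set_option autoImplicit false

namespace Pool.Agent.GHCFull

open scoped InnerProductSpace

namespace Fock

variable {F : ℕ → Type*} [∀ k, NormedAddCommGroup (F k)] [∀ k, InnerProductSpace ℂ (F k)]

section General

variable {K : Type*} [DecidableEq K] (Φ : Fock F K)

theorem cc (α β : K) (k : ℕ) (x : F k) : Φ.c α (k + 1) (Φ.c β k x) = -Φ.c β (k + 1) (Φ.c α k x) := by
  refine ext_inner_right ℂ fun y => ?_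
  rw [inner_neg_left, Φ.adj, Φ.adj, Φ.adj, Φ.adj, Φ.dd β α, inner_neg_right]

theorem hop_adj (α β : K) (k : ℕ) (x y : F k) : ⟪Φ.hop α β k x, y⟫_ℂ = ⟪x, Φ.hop β α k y⟫_ℂ := by
  cases k with
  | zero => simp [hop]
  | succ k =>
    simp only [hop, LinearMap.comp_apply]
    rw [Φ.adj, ← inner_conj_symm x, Φ.adj, inner_conj_symm]

theorem hop_c (α β γ : K) (k : ℕ) (x : F k) : Φ.hop α β (k + 1) (Φ.c γ k x) =
    Φ.c γ k (Φ.hop α β k x) + if β = γ then Φ.c α k x else 0 := by
  cases k with
  | zero =>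
    simp only [hop, LinearMap.comp_apply, LinearMap.zero_apply, _root_.map_zero, zero_add]
    rw [Φ.car₀]
    split_ifs
    · rfl
    · rw [_root_.map_zero]
  | succ k =>
    simp only [hop, LinearMap.comp_apply]
    rw [Φ.car, map_sub, Φ.cc α γ, sub_neg_eq_add]
    split_ifs
    · abel
    · rw [_root_.map_zero, zero_add, add_zero]

theorem hop_d (α β γ : K) (k : ℕ) (x : F (k + 1)) : Φ.hop α β k (Φ.d γ k x) =
    Φ.d γ k (Φ.hop α β (k + 1) x) - if γ = α then Φ.d β k x else 0 := by
  cases k with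
  | zero =>
    simp only [hop, LinearMap.comp_apply, LinearMap.zero_apply]
    rw [Φ.car₀, sub_self]
  | succ k =>
    simp only [hop, LinearMap.comp_apply]
    rw [Φ.car, Φ.dd γ β, _root_.map_neg]
    abel

end General

end Fock

end Pool.Agent.GHCFull
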