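import Pool.Agent.GHCFull.C1

/-!
# Adjoints and commutation relations in the Fock space
-/

set_option autoImplicit false

namespace Pool.Agent.GHCFull

open scoped InnerProductSpace

namespace Fock

variable {F : ℕ → Type*} [∀ k, NormedAddCommGroup (F k)] [∀ k, InnerProductSpace ℂ (F k)]

private theorem C2_aux1 {M : Type*} [AddCommGroup M] (A B a b c d : M) (h1 : a + d = 0)
    (h2 : b + c = 0) : A + B + ((a + b) + (c + d)) = A + B := by
  have h : A + B + ((a + b) + (c + d)) = A + B + ((a + d) + (b + c)) := by abel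
  rw [h, h1, h2]
  simp

private theorem C2_aux2 {M : Type*} [AddCommGroup M] (A B a b c d : M) (h1 : a + d = 0)
    (h2 : b + c = 0) : A + (a + b) + (B + (c + d)) = A + B := by
  have h : A + (a + b) + (B + (c + d)) = A + B + ((a + d) + (b + c)) := by abel
  rw [h, h1, h2]
  simp

section General

variable {K : Type*} [DecidableEq K] (Φ : Fock F K)

private theorem C2_hop_cc (α β γ δ : K) (k : ℕ) (x : F k) :
    Φ.hop α β (k + 2) (Φ.c γ (k + 1) (Φ.c δ k x)) =
      Φ.c γ (k + 1) (Φ.c δ k (Φ.hop α β k x)) + (if β = δ then Φ.c γ (k + 1) (Φ.c α k x) else 0) +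
        (if β = γ then Φ.c α (k + 1) (Φ.c δ k x) else 0) := by
  have h1 := Φ.hop_c α β γ (k + 1) (Φ.c δ k x)
  have h2 := Φ.hop_c α β δ k x
  rw [h1, h2, map_add]
  congr 2
  split_ifs <;> simp

private theorem C2_hop_hop (α β γ δ : K) (k : ℕ) (x : F k) :
    Φ.hop α β k (Φ.hop γ δ k x) = Φ.hop γ δ k (Φ.hop α β k x) -
      (if δ = α then Φ.hop γ β k x else 0) + (if β = γ then Φ.hop α δ k x else 0) := by
  cases k with
  | zero => simp [hop]
  | succ k =>
    have e1 : Φ.hop γ δ (k + 1) x = Φ.c γ k (Φ.d δ k x) := rfl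
    have e2 : Φ.hop γ δ (k + 1) (Φ.hop α β (k + 1) x) =
      Φ.c γ k (Φ.d δ k (Φ.hop α β (k + 1) x)) := rfl
    have e3 : Φ.hop γ β (k + 1) x = Φ.c γ k (Φ.d β k x) := rfl
    have e4 : Φ.hop α δ (k + 1) x = Φ.c α k (Φ.d δ k x) := rfl
    rw [e1, e2, e3, e4, Φ.hop_c, Φ.hop_d, map_sub]
    congr 2
    split_ifs <;> simp

end General

variable {T : Type} [Fintype T] [DecidableEq T] {I S : T → Type} [∀ t, Fintype (I t)]
  [∀ t, DecidableEq (I t)] [∀ t, Fintype (S t)] [∀ t, DecidableEq (S t)] (Φ : Fock F (Idx I S))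

theorem X_adj (t : T) (i j : I t) (k : ℕ) (x y : F k) :
    ⟪Φ.X t i j k x, y⟫_ℂ = ⟪x, Φ.Y t i j k y⟫_ℂ := by
  simp only [X, Y, LinearMap.sum_apply, LinearMap.add_apply, sum_inner, inner_sum, inner_add_left,
    inner_add_right, hop_adj]

private theorem C2_Y_adj (t : T) (i j : I t) (k : ℕ) (x y : F k) :
    ⟪Φ.Y t i j k x, y⟫_ℂ = ⟪x, Φ.X t i j k y⟫_ℂ := by
  rw [← inner_conj_symm, ← X_adj, inner_conj_symm]

theorem N_adj (k : ℕ) (x y : F k) : ⟪Φ.N k x, y⟫_ℂ = ⟪x, Φ.N k y⟫_ℂ := by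
  simp only [N, LinearMap.sum_apply, sum_inner, inner_sum, hop_adj]

theorem L_adj (t : T) (s s' : S t) (k : ℕ) (x : F k) (y : F (k + 2)) :
    ⟪Φ.L t s s' k x, y⟫_ℂ = ⟪x, Φ.Lam t s s' k y⟫_ℂ := by
  simp only [L, Lam, LinearMap.sum_apply, LinearMap.add_apply, LinearMap.comp_apply, sum_inner,
    inner_sum, inner_add_left, inner_add_right, Φ.adj]

private theorem C2_hop_L_ne (t t' : T) (h : t ≠ t') (α : Idx I S) (j : I t) (r : S t) (e : Bool)
    (s s' : S t') (k : ℕ) (x : F k) :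
    Φ.hop α ⟨t, j, r, e⟩ (k + 2) (Φ.L t' s s' k x) =
      Φ.L t' s s' k (Φ.hop α ⟨t, j, r, e⟩ k x) := by
  simp only [L, LinearMap.sum_apply, LinearMap.add_apply, LinearMap.comp_apply, map_sum, map_add,
    C2_hop_cc]
  refine Finset.sum_congr rfl fun l _ => ?_
  have hh : ∀ (a : I t × S t × Bool) (b : I t' × S t' × Bool),
      ¬ ((⟨t, a⟩ : Idx I S) = ⟨t', b⟩) := by
    intro a b hab
    exact h (congrArg Sigma.fst hab)
  simp only [hh, if_false, add_zero]

private theorem C2_hop_L_false (t : T) (α : Idx I S) (j : I t) (r : S t)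
    (s s' : S t) (k : ℕ) (x : F k) :
    Φ.hop α ⟨t, j, r, false⟩ (k + 2) (Φ.L t s s' k x) =
      Φ.L t s s' k (Φ.hop α ⟨t, j, r, false⟩ k x) +
      ((if r = s' then Φ.c ⟨t, j, s, true⟩ (k + 1) (Φ.c α k x) else 0) +
      (if r = s then Φ.c ⟨t, j, s', true⟩ (k + 1) (Φ.c α k x) else 0)) := by
  simp only [L, LinearMap.sum_apply, LinearMap.add_apply, LinearMap.comp_apply, map_sum, map_add,
    C2_hop_cc, Sigma.mk.injEq, heq_eq_eq, Prod.mk.injEq, true_and, and_true, Bool.false_eq_true,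
    and_false, if_false, add_zero]
  have h1 : (if r = s' then Φ.c (⟨t, j, s, true⟩ : Idx I S) (k + 1) (Φ.c α k x) else 0) =
      ∑ l : I t, if j = l ∧ r = s' then
        Φ.c (⟨t, l, s, true⟩ : Idx I S) (k + 1) (Φ.c α k x) else 0 := by
    simp only [ite_and, Finset.sum_ite_eq, Finset.mem_univ, if_true]
  have h2 : (if r = s then Φ.c (⟨t, j, s', true⟩ : Idx I S) (k + 1) (Φ.c α k x) else 0) =
      ∑ l : I t, if j = l ∧ r = s then
        Φ.c (⟨t, l, s', true⟩ : Idx I S) (k + 1) (Φ.c α k x) else 0 := by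
    simp only [ite_and, Finset.sum_ite_eq, Finset.mem_univ, if_true]
  rw [h1, h2, ← Finset.sum_add_distrib, ← Finset.sum_add_distrib]
  refine Finset.sum_congr rfl fun l _ => ?_
  abel

private theorem C2_hop_L_true (t : T) (α : Idx I S) (j : I t) (r : S t)
    (s s' : S t) (k : ℕ) (x : F k) :
    Φ.hop α ⟨t, j, r, true⟩ (k + 2) (Φ.L t s s' k x) =
      Φ.L t s s' k (Φ.hop α ⟨t, j, r, true⟩ k x) +
      ((if r = s then Φ.c α (k + 1) (Φ.c ⟨t, j, s', false⟩ k x) else 0) +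
      (if r = s' then Φ.c α (k + 1) (Φ.c ⟨t, j, s, false⟩ k x) else 0)) := by
  simp only [L, LinearMap.sum_apply, LinearMap.add_apply, LinearMap.comp_apply, map_sum, map_add,
    C2_hop_cc, Sigma.mk.injEq, heq_eq_eq, Prod.mk.injEq, true_and, and_true, Bool.true_eq_false,
    and_false, if_false, add_zero]
  have h1 : (if r = s then Φ.c α (k + 1) (Φ.c (⟨t, j, s', false⟩ : Idx I S) k x) else 0) =
      ∑ l : I t, if j = l ∧ r = s then
        Φ.c α (k + 1) (Φ.c (⟨t, l, s', false⟩ : Idx I S) k x) else 0 := by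
    simp only [ite_and, Finset.sum_ite_eq, Finset.mem_univ, if_true]
  have h2 : (if r = s' then Φ.c α (k + 1) (Φ.c (⟨t, j, s, false⟩ : Idx I S) k x) else 0) =
      ∑ l : I t, if j = l ∧ r = s' then
        Φ.c α (k + 1) (Φ.c (⟨t, l, s, false⟩ : Idx I S) k x) else 0 := by
    simp only [ite_and, Finset.sum_ite_eq, Finset.mem_univ, if_true]
  rw [h1, h2, ← Finset.sum_add_distrib, ← Finset.sum_add_distrib]
  refine Finset.sum_congr rfl fun l _ => ?_
  abel

private theorem C2_cc_add (α β : Idx I S) (k : ℕ) (x : F k) :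
    Φ.c α (k + 1) (Φ.c β k x) + Φ.c β (k + 1) (Φ.c α k x) = 0 := by
  rw [Φ.cc α β]
  simp

theorem X_L (t : T) (i j : I t) (t' : T) (s s' : S t') (k : ℕ) (x : F k) :
    Φ.X t i j (k + 2) (Φ.L t' s s' k x) = Φ.L t' s s' k (Φ.X t i j k x) := by
  rcases eq_or_ne t t' with rfl | h
  · simp only [X, LinearMap.sum_apply, LinearMap.add_apply, map_sum, map_add, C2_hop_L_false]
    have h0 : ∀ a b c d e : F (k + 2), a + (b + c) + (d + e) = (a + d) + ((b + c) + e) := by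
      intro a b c d e
      abel
    simp only [h0, Finset.sum_add_distrib, Finset.sum_ite_eq', Finset.mem_univ, if_true]
    have h1 := C2_cc_add Φ ⟨t, j, s, true⟩ ⟨t, i, s', true⟩ k x
    have h2 := C2_cc_add Φ ⟨t, j, s', true⟩ ⟨t, i, s, true⟩ k x
    exact C2_aux1 _ _ _ _ _ _ h1 h2
  · simp only [X, LinearMap.sum_apply, LinearMap.add_apply, map_sum, map_add,
      C2_hop_L_ne Φ t t' h]

theorem Y_L (t : T) (i j : I t) (t' : T) (s s' : S t') (k : ℕ) (x : F k) :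
    Φ.Y t i j (k + 2) (Φ.L t' s s' k x) = Φ.L t' s s' k (Φ.Y t i j k x) := by
  rcases eq_or_ne t t' with rfl | h
  · simp only [Y, LinearMap.sum_apply, LinearMap.add_apply, map_sum, map_add, C2_hop_L_true]
    simp only [Finset.sum_add_distrib, Finset.sum_ite_eq', Finset.mem_univ, if_true]
    have h1 := C2_cc_add Φ ⟨t, j, s, false⟩ ⟨t, i, s', false⟩ k x
    have h2 := C2_cc_add Φ ⟨t, j, s', false⟩ ⟨t, i, s, false⟩ k x
    exact C2_aux2 _ _ _ _ _ _ h1 h2
  · simp only [Y, LinearMap.sum_apply, LinearMap.add_apply, map_sum, map_add,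
      C2_hop_L_ne Φ t t' h]

private theorem C2_N_L_aux (t' t : T) (s s' : S t) (k : ℕ) (x : F k) :
    (∑ i : I t', ∑ r : S t', Φ.hop ⟨t', i, r, false⟩ ⟨t', i, r, false⟩ (k + 2)
      (Φ.L t s s' k x)) = (∑ i : I t', ∑ r : S t', Φ.L t s s' k
        (Φ.hop ⟨t', i, r, false⟩ ⟨t', i, r, false⟩ k x)) +
      if t' = t then Φ.L t s s' k x else 0 := by
  rcases eq_or_ne t' t with rfl | h
  · simp only [C2_hop_L_false, Finset.sum_add_distrib, Finset.sum_ite_eq', Finset.mem_univ,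
      if_true]
    simp only [L, LinearMap.sum_apply, LinearMap.add_apply, LinearMap.comp_apply,
      Finset.sum_add_distrib]
  · simp only [C2_hop_L_ne Φ t' t h, if_neg h, add_zero]

theorem N_L (t : T) (s s' : S t) (k : ℕ) (x : F k) :
    Φ.N (k + 2) (Φ.L t s s' k x) = Φ.L t s s' k (Φ.N k x) + Φ.L t s s' k x := by
  simp only [N, LinearMap.sum_apply, C2_N_L_aux, Finset.sum_add_distrib, Finset.sum_ite_eq',
    Finset.mem_univ, if_true, map_sum]

theorem X_Lam (t : T) (i j : I t) (t' : T) (s s' : S t') (k : ℕ) (x : F (k + 2)) :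
    Φ.X t i j k (Φ.Lam t' s s' k x) = Φ.Lam t' s s' k (Φ.X t i j (k + 2) x) := by
  refine ext_inner_left ℂ fun z => ?_
  rw [← C2_Y_adj, ← L_adj, ← Y_L, C2_Y_adj, L_adj]

theorem Y_Lam (t : T) (i j : I t) (t' : T) (s s' : S t') (k : ℕ) (x : F (k + 2)) :
    Φ.Y t i j k (Φ.Lam t' s s' k x) = Φ.Lam t' s s' k (Φ.Y t i j (k + 2) x) := by
  refine ext_inner_left ℂ fun z => ?_
  rw [← X_adj, ← L_adj, ← X_L, X_adj, L_adj]

theorem N_Lam (t : T) (s s' : S t) (k : ℕ) (x : F (k + 2)) :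
    Φ.N k (Φ.Lam t s s' k x) = Φ.Lam t s s' k (Φ.N (k + 2) x) - Φ.Lam t s s' k x := by
  refine ext_inner_left ℂ fun z => ?_
  rw [← N_adj, ← L_adj, inner_sub_right, ← L_adj, ← L_adj, ← N_adj, N_L, inner_add_left,
    add_sub_cancel_right]

private theorem C2_N_hop_aux (γ : Idx I S) (t : T) (j : I t) (q : S t) (k : ℕ) (x : F k) :
    (∑ t' : T, ∑ l : I t', ∑ r : S t', if (⟨t, j, q, false⟩ : Idx I S) = ⟨t', l, r, false⟩ then
      Φ.hop γ ⟨t', l, r, false⟩ k x else 0) = Φ.hop γ ⟨t, j, q, false⟩ k x := by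
  rw [Finset.sum_eq_single t]
  · simp only [Sigma.mk.injEq, heq_eq_eq, Prod.mk.injEq, true_and, and_true, ite_and]
    rw [Finset.sum_eq_single j]
    · simp
    · intro l _ hl
      simp [hl.symm]
    · intro h
      exact absurd (Finset.mem_univ _) h
  · intro t' _ ht'
    refine Finset.sum_eq_zero fun l _ => Finset.sum_eq_zero fun r _ => ?_
    rw [if_neg]
    intro hab
    exact ht' (congrArg Sigma.fst hab).symm
  · intro h
    exact absurd (Finset.mem_univ _) h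

private theorem C2_N_hop (t : T) (i j : I t) (q q' : S t) (k : ℕ) (x : F k) :
    Φ.N k (Φ.hop ⟨t, i, q, true⟩ ⟨t, j, q', false⟩ k x) =
      Φ.hop ⟨t, i, q, true⟩ ⟨t, j, q', false⟩ k (Φ.N k x) -
        Φ.hop ⟨t, i, q, true⟩ ⟨t, j, q', false⟩ k x := by
  have hne : ∀ (t' : T) (l : I t') (r : S t'),
      ¬ ((⟨t', l, r, false⟩ : Idx I S) = ⟨t, i, q, true⟩) := by
    intro t' l r h
    rcases eq_or_ne t' t with rfl | h'
    · simp at h
    · exact h' (congrArg Sigma.fst h)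
  have key : ∀ (t' : T) (l : I t') (r : S t'),
      Φ.hop ⟨t', l, r, false⟩ ⟨t', l, r, false⟩ k
        (Φ.hop ⟨t, i, q, true⟩ ⟨t, j, q', false⟩ k x) =
      Φ.hop ⟨t, i, q, true⟩ ⟨t, j, q', false⟩ k
        (Φ.hop ⟨t', l, r, false⟩ ⟨t', l, r, false⟩ k x) -
      (if (⟨t, j, q', false⟩ : Idx I S) = ⟨t', l, r, false⟩ then
        Φ.hop ⟨t, i, q, true⟩ ⟨t', l, r, false⟩ k x else 0) := by
    intro t' l r
    rw [C2_hop_hop, if_neg (hne t' l r), add_zero]
  simp only [N, LinearMap.sum_apply, map_sum, key, Finset.sum_sub_distrib]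
  rw [C2_N_hop_aux]

theorem N_X (t : T) (i j : I t) (k : ℕ) (x : F k) :
    Φ.N k (Φ.X t i j k x) = Φ.X t i j k (Φ.N k x) - Φ.X t i j k x := by
  simp only [X, LinearMap.sum_apply, LinearMap.add_apply, map_sum, map_add, C2_N_hop,
    ← Finset.sum_sub_distrib]
  refine Finset.sum_congr rfl fun r _ => ?_
  abel

end Fock

end Pool.Agent.GHCFull
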