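import Pool.Agent.GHCFull.Alt1

/-!
# A hermitian form on alternating forms
-/

set_option autoImplicit false

universe u

namespace Pool.Agent.GHCFull

open scoped InnerProductSpace ComplexConjugate

variable {H : Type u} [AddCommGroup H] [Module ℂ H]

section Core

variable {K : Type*} [Fintype K] (b : Module.Basis K ℂ H)

/-- The hermitian form on alternating forms for which the monomials in the dual basis are
orthonormal. -/
noncomputable def hf (k : ℕ) (ω η : AForm H k) : ℂ :=
  ((k.factorial : ℂ))⁻¹ * ∑ f : Fin k → K, conj (ω fun a => b (f a)) * η fun a => b (f a)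

private theorem Inner1_self (k : ℕ) (ω : AForm H k) :
    hf b k ω ω = (((k.factorial : ℝ)⁻¹ * ∑ f : Fin k → K, ‖ω fun a => b (f a)‖ ^ 2 : ℝ) : ℂ) := by
  unfold hf
  push_cast
  congr 1
  refine Finset.sum_congr rfl fun f _ => ?_
  rw [mul_comm, Complex.mul_conj, Complex.normSq_eq_norm_sq]
  push_cast
  rfl

theorem hf_pos (k : ℕ) (ω : AForm H k) : 0 ≤ (hf b k ω ω).re := by
  rw [Inner1_self, Complex.ofReal_re]
  positivity

theorem hf_def (k : ℕ) (ω : AForm H k) (h : hf b k ω ω = 0) : ω = 0 := by
  rw [Inner1_self] at h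
  have h1 : (k.factorial : ℝ)⁻¹ * ∑ f : Fin k → K, ‖ω fun a => b (f a)‖ ^ 2 = 0 := by
    exact_mod_cast h
  have h2 : ∑ f : Fin k → K, ‖ω fun a => b (f a)‖ ^ 2 = 0 := by
    rcases mul_eq_zero.1 h1 with h3 | h3
    · exact absurd h3 (by positivity)
    · exact h3
  refine Module.Basis.ext_alternating b fun f _ => ?_
  have h3 := (Finset.sum_eq_zero_iff_of_nonneg (fun f _ => by positivity)).1 h2 f
    (Finset.mem_univ f)
  simpa using h3

/-- The product with a basis covector is adjoint to the contraction with the basis vector. -/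
theorem hf_adj (α : K) (k : ℕ) (ω : AForm H k) (η : AForm H (k + 1)) :
    hf b (k + 1) (wd (b.coord α) k ω) η = hf b k ω (ct (b α) k η) := by
  classical
  have key : ∀ i : Fin (k + 1), (∑ f : Fin (k + 1) → K,
      conj ((-1 : ℂ) ^ (i : ℕ) * (b.coord α (b (f i)) * ω (i.removeNth fun a => b (f a)))) *
        η fun a => b (f a)) =
      ∑ f : Fin k → K, conj (ω fun a => b (f a)) * (ct (b α) k η) fun a => b (f a) := by
    intro i
    rw [← (Fin.insertNthEquiv (fun _ => K) i).sum_comp, Fintype.sum_prod_type,
      Finset.sum_eq_single α]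
    · refine Finset.sum_congr rfl fun g _ => ?_
      have e1 : (fun a => b ((Fin.insertNthEquiv (fun _ => K) i) (α, g) a)) =
          (i.insertNth (b α) (fun a => b (g a)) : Fin (k + 1) → H) := by
        funext a
        refine Fin.succAboveCases i ?_ (fun j => ?_) a <;> simp [Fin.insertNthEquiv]
      have e2 : (Fin.insertNthEquiv (fun _ => K) i) (α, g) i = α := by
        simp [Fin.insertNthEquiv]
      rw [e1, e2, Fin.removeNth_insertNth, AlternatingMap.map_insertNth]
      simp only [Module.Basis.coord_apply, Module.Basis.repr_self, Finsupp.single_eq_same, one_mul,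
        map_mul, map_pow, map_neg, map_one, zsmul_eq_mul, smul_eq_mul]
      push_cast
      rw [ct_apply]
      have e3 : ((-1 : ℂ) ^ (i : ℕ)) * (-1 : ℂ) ^ (i : ℕ) = 1 := by
        rw [← mul_pow]
        simp
      linear_combination (conj (ω fun a => b (g a)) * η (Matrix.vecCons (b α) fun a => b (g a))) * e3
    · intro c _ hc
      refine Finset.sum_eq_zero fun g _ => ?_
      have e2 : (Fin.insertNthEquiv (fun _ => K) i) (c, g) i = c := by
        simp [Fin.insertNthEquiv]
      rw [e2]
      simp [Finsupp.single_apply, hc]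
    · intro h
      exact absurd (Finset.mem_univ _) h
  have h1 : (∑ f : Fin (k + 1) → K, conj (wd (b.coord α) k ω fun a => b (f a)) *
      η fun a => b (f a)) = ((k : ℂ) + 1) *
      ∑ f : Fin k → K, conj (ω fun a => b (f a)) * (ct (b α) k η) fun a => b (f a) := by
    simp_rw [wd_apply, map_sum, Finset.sum_mul]
    rw [Finset.sum_comm, Finset.sum_congr rfl fun i _ => key i]
    simp
  unfold hf
  rw [h1, ← mul_assoc]
  congr 1
  rw [Nat.factorial_succ]
  push_cast
  have h2 : ((k : ℂ) + 1) ≠ 0 := by exact_mod_cast Nat.succ_ne_zero k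
  have h3 : ((k.factorial : ℂ)) ≠ 0 := by exact_mod_cast k.factorial_ne_zero
  field_simp

end Core

end Pool.Agent.GHCFull
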