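import Pool.Agent.GHCFull.C1

/-!
# The positivity argument
-/

set_option autoImplicit false

namespace Pool.Agent.GHCFull

open scoped InnerProductSpace

namespace Fock

variable {F : ℕ → Type*} [∀ k, NormedAddCommGroup (F k)] [∀ k, InnerProductSpace ℂ (F k)]
  {K : Type*} [DecidableEq K] (Φ : Fock F K) {I S : Type*} [Fintype I] [Fintype S]
  [DecidableEq I] [DecidableEq S] {a b : I → S → K}

private lemma sum_diag (ha : ∀ i s j t, a i s = a j t → i = j ∧ s = t) (f : I → I → S → S → ℂ) :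
    ∑ i, ∑ j, ∑ s, ∑ t, (if a i s = a j t then f i j s t else 0) = ∑ i, ∑ s, f i i s s := by
  refine Finset.sum_congr rfl fun i _ => ?_
  have h : ∀ j, ∑ s, ∑ t, (if a i s = a j t then f i j s t else 0) =
      if i = j then ∑ s, f i j s s else 0 := by
    intro j
    split_ifs with hij
    · refine Finset.sum_congr rfl fun s _ => ?_
      rw [Finset.sum_eq_single s]
      · rw [if_pos (by rw [hij])]
      · intro t _ hts
        rw [if_neg]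
        intro he
        exact hts (ha _ _ _ _ he).2.symm
      · intro h
        exact absurd (Finset.mem_univ s) h
    · refine Finset.sum_eq_zero fun s _ => Finset.sum_eq_zero fun t _ => ?_
      rw [if_neg]
      intro he
      exact hij (ha _ _ _ _ he).1
  simp only [h]
  rw [Finset.sum_ite_eq Finset.univ i, if_pos (Finset.mem_univ i)]

private lemma nsq {E : Type*} [NormedAddCommGroup E] [InnerProductSpace ℂ E] (x : E) :
    ⟪x, x⟫_ℂ = ((‖x‖ ^ 2 : ℝ) : ℂ) := by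
  rw [inner_self_eq_norm_sq_to_K]
  norm_cast

private lemma anti {E : Type*} [NormedAddCommGroup E] [InnerProductSpace ℂ E] {A : Type*}
    [Fintype A] (X : A → A → E) (h : ∀ i j, X i j = -X j i) :
    ∑ i, ∑ j, ⟪X i j, X j i⟫_ℂ = -((∑ i, ∑ j, ‖X i j‖ ^ 2 : ℝ) : ℂ) := by
  push_cast
  rw [← Finset.sum_neg_distrib]
  refine Finset.sum_congr rfl fun i _ => ?_
  rw [← Finset.sum_neg_distrib]
  refine Finset.sum_congr rfl fun j _ => ?_
  rw [h j i, inner_neg_right, nsq]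
  push_cast
  rfl

/-- The positivity argument in degree one. -/
theorem key₁ (ha : ∀ i s j t, a i s = a j t → i = j ∧ s = t)
    (hb : ∀ i s j t, b i s = b j t → i = j ∧ s = t) (hab : ∀ i s j t, a i s ≠ b j t) (w : F 1)
    (hX : ∀ i j, ∑ s, (Φ.c (a i s) 0 (Φ.d (b j s) 0 w) + Φ.c (a j s) 0 (Φ.d (b i s) 0 w)) = 0)
    (i : I) (s : S) : Φ.d (b i s) 0 w = 0 := by
  set X : I → I → F 1 := fun i j => ∑ s, Φ.c (a i s) 0 (Φ.d (b j s) 0 w) with hXd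
  have hXa : ∀ i j, X i j = -X j i := by
    intro i j
    have h := hX i j
    rw [Finset.sum_add_distrib] at h
    exact eq_neg_of_add_eq_zero_left h
  have h1 : ∑ i, ∑ j, ⟪X i j, X j i⟫_ℂ = ((∑ i, ∑ s, ‖Φ.d (b i s) 0 w‖ ^ 2 : ℝ) : ℂ) := by
    have h2 : ∀ i j, ⟪X i j, X j i⟫_ℂ = ∑ s, ∑ t, (if a i s = a j t then
        ⟪Φ.d (b j s) 0 w, Φ.d (b i t) 0 w⟫_ℂ else 0) := by
      intro i j
      simp only [hXd]
      rw [sum_inner]
      refine Finset.sum_congr rfl fun s _ => ?_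
      rw [inner_sum]
      refine Finset.sum_congr rfl fun t _ => ?_
      rw [Φ.adj, Φ.car₀]
      split_ifs
      · rfl
      · rw [inner_zero_right]
    simp only [h2]
    rw [sum_diag ha fun i j s t => ⟪Φ.d (b j s) 0 w, Φ.d (b i t) 0 w⟫_ℂ]
    push_cast
    refine Finset.sum_congr rfl fun i _ => Finset.sum_congr rfl fun s _ => ?_
    rw [nsq]
    push_cast
    rfl
  rw [anti X hXa] at h1
  have h3 : -(∑ i, ∑ j, ‖X i j‖ ^ 2 : ℝ) = ∑ i, ∑ s, ‖Φ.d (b i s) 0 w‖ ^ 2 := by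
    exact_mod_cast h1
  have h4 : 0 ≤ ∑ i, ∑ j, ‖X i j‖ ^ 2 :=
    Finset.sum_nonneg fun i _ => Finset.sum_nonneg fun j _ => sq_nonneg _
  have h5 : ∑ i, ∑ s, ‖Φ.d (b i s) 0 w‖ ^ 2 ≤ 0 := by rw [← h3]; linarith
  have h6 : ‖Φ.d (b i s) 0 w‖ ^ 2 ≤ ∑ i, ∑ s, ‖Φ.d (b i s) 0 w‖ ^ 2 :=
    le_trans (Finset.single_le_sum (f := fun s => ‖Φ.d (b i s) 0 w‖ ^ 2)
      (fun s _ => sq_nonneg _) (Finset.mem_univ s))
      (Finset.single_le_sum (f := fun i => ∑ s, ‖Φ.d (b i s) 0 w‖ ^ 2)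
        (fun i _ => Finset.sum_nonneg fun s _ => sq_nonneg _) (Finset.mem_univ i))
  have h7 : ‖Φ.d (b i s) 0 w‖ ^ 2 = 0 := le_antisymm (h6.trans h5) (sq_nonneg _)
  exact norm_eq_zero.1 (pow_eq_zero_iff (two_ne_zero)|>.1 h7)

/-- The positivity argument in degree at least two: with `X i j = ∑ s, c (a i s) d (b j s)` and
`C s t = ∑ i, d (a i s) d (b i t)` one has
`∑ ⟪X i j w, X j i w⟫ = ∑ ‖d (b i s) w‖ ^ 2 - ∑ ⟪C t s w, C s t w⟫`. If `X i j w` is antisymmetric in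
`i, j` and `C s t w` is antisymmetric in `s, t`, then all terms vanish. -/
theorem key₂ (ha : ∀ i s j t, a i s = a j t → i = j ∧ s = t)
    (hb : ∀ i s j t, b i s = b j t → i = j ∧ s = t) (hab : ∀ i s j t, a i s ≠ b j t) (k : ℕ)
    (w : F (k + 2))
    (hX : ∀ i j, ∑ s, (Φ.c (a i s) (k + 1) (Φ.d (b j s) (k + 1) w) +
      Φ.c (a j s) (k + 1) (Φ.d (b i s) (k + 1) w)) = 0)
    (hH : ∀ s t, ∑ i, (Φ.d (b i t) k (Φ.d (a i s) (k + 1) w) +
      Φ.d (b i s) k (Φ.d (a i t) (k + 1) w)) = 0)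
    (i : I) (s : S) : Φ.d (b i s) (k + 1) w = 0 := by
  set X : I → I → F (k + 2) := fun i j => ∑ s, Φ.c (a i s) (k + 1) (Φ.d (b j s) (k + 1) w)
    with hXd
  set C : S → S → F k := fun s t => ∑ i, Φ.d (a i s) k (Φ.d (b i t) (k + 1) w) with hCd
  have hXa : ∀ i j, X i j = -X j i := by
    intro i j
    have h := hX i j
    rw [Finset.sum_add_distrib] at h
    exact eq_neg_of_add_eq_zero_left h
  have hCa : ∀ s t, C s t = -C t s := by
    intro s t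
    have h := hH s t
    have h' : ∀ i, Φ.d (b i t) k (Φ.d (a i s) (k + 1) w) + Φ.d (b i s) k (Φ.d (a i t) (k + 1) w) =
        -(Φ.d (a i s) k (Φ.d (b i t) (k + 1) w) + Φ.d (a i t) k (Φ.d (b i s) (k + 1) w)) := by
      intro i
      rw [Φ.dd (b i t), Φ.dd (b i s)]
      abel
    simp only [h'] at h
    rw [Finset.sum_neg_distrib, neg_eq_zero, Finset.sum_add_distrib] at h
    exact eq_neg_of_add_eq_zero_left h
  have h1 : ∑ i, ∑ j, ⟪X i j, X j i⟫_ℂ = ((∑ i, ∑ s, ‖Φ.d (b i s) (k + 1) w‖ ^ 2 : ℝ) : ℂ) -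
      ∑ s, ∑ t, ⟪C t s, C s t⟫_ℂ := by
    have h2 : ∀ i j, ⟪X i j, X j i⟫_ℂ = (∑ s, ∑ t, (if a i s = a j t then
        ⟪Φ.d (b j s) (k + 1) w, Φ.d (b i t) (k + 1) w⟫_ℂ else 0)) -
        ∑ s, ∑ t, ⟪Φ.d (a j t) k (Φ.d (b j s) (k + 1) w),
          Φ.d (a i s) k (Φ.d (b i t) (k + 1) w)⟫_ℂ := by
      intro i j
      simp only [hXd]
      rw [sum_inner, ← Finset.sum_sub_distrib]
      refine Finset.sum_congr rfl fun s _ => ?_
      rw [inner_sum, ← Finset.sum_sub_distrib]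
      refine Finset.sum_congr rfl fun t _ => ?_
      rw [Φ.adj, Φ.car, inner_sub_right]
      congr 1
      · split_ifs
        · rfl
        · rw [inner_zero_right]
      · rw [← inner_conj_symm, Φ.adj, inner_conj_symm]
    simp only [h2, Finset.sum_sub_distrib]
    rw [sum_diag ha fun i j s t => ⟪Φ.d (b j s) (k + 1) w, Φ.d (b i t) (k + 1) w⟫_ℂ]
    congr 1
    · push_cast
      refine Finset.sum_congr rfl fun i _ => Finset.sum_congr rfl fun s _ => ?_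
      rw [nsq]
      push_cast
      rfl
    · have h3 : ∀ s t, ⟪C t s, C s t⟫_ℂ = ∑ i, ∑ j, ⟪Φ.d (a j t) k (Φ.d (b j s) (k + 1) w),
          Φ.d (a i s) k (Φ.d (b i t) (k + 1) w)⟫_ℂ := by
        intro s t
        simp only [hCd]
        rw [inner_sum]
        refine Finset.sum_congr rfl fun i _ => ?_
        rw [sum_inner]
      simp only [h3]
      calc ∑ i, ∑ j, ∑ s, ∑ t, ⟪Φ.d (a j t) k (Φ.d (b j s) (k + 1) w),
            Φ.d (a i s) k (Φ.d (b i t) (k + 1) w)⟫_ℂ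
          = ∑ i, ∑ s, ∑ j, ∑ t, ⟪Φ.d (a j t) k (Φ.d (b j s) (k + 1) w),
            Φ.d (a i s) k (Φ.d (b i t) (k + 1) w)⟫_ℂ :=
            Finset.sum_congr rfl fun i _ => Finset.sum_comm
        _ = ∑ s, ∑ i, ∑ j, ∑ t, ⟪Φ.d (a j t) k (Φ.d (b j s) (k + 1) w),
            Φ.d (a i s) k (Φ.d (b i t) (k + 1) w)⟫_ℂ := Finset.sum_comm
        _ = ∑ s, ∑ i, ∑ t, ∑ j, ⟪Φ.d (a j t) k (Φ.d (b j s) (k + 1) w),
            Φ.d (a i s) k (Φ.d (b i t) (k + 1) w)⟫_ℂ :=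
            Finset.sum_congr rfl fun s _ => Finset.sum_congr rfl fun i _ => Finset.sum_comm
        _ = ∑ s, ∑ t, ∑ i, ∑ j, ⟪Φ.d (a j t) k (Φ.d (b j s) (k + 1) w),
            Φ.d (a i s) k (Φ.d (b i t) (k + 1) w)⟫_ℂ :=
            Finset.sum_congr rfl fun s _ => Finset.sum_comm
  have hC2 : ∑ s, ∑ t, ⟪C t s, C s t⟫_ℂ = -((∑ s, ∑ t, ‖C s t‖ ^ 2 : ℝ) : ℂ) := by
    rw [← anti C hCa, Finset.sum_comm]
  rw [anti X hXa, hC2] at h1
  have h3 : -(∑ i, ∑ j, ‖X i j‖ ^ 2 : ℝ) = (∑ i, ∑ s, ‖Φ.d (b i s) (k + 1) w‖ ^ 2) -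
      -(∑ s, ∑ t, ‖C s t‖ ^ 2) := by
    exact_mod_cast h1
  have h4 : 0 ≤ ∑ i, ∑ j, ‖X i j‖ ^ 2 :=
    Finset.sum_nonneg fun i _ => Finset.sum_nonneg fun j _ => sq_nonneg _
  have h4' : 0 ≤ ∑ s, ∑ t, ‖C s t‖ ^ 2 :=
    Finset.sum_nonneg fun i _ => Finset.sum_nonneg fun j _ => sq_nonneg _
  have h5 : ∑ i, ∑ s, ‖Φ.d (b i s) (k + 1) w‖ ^ 2 ≤ 0 := by linarith
  have h6 : ‖Φ.d (b i s) (k + 1) w‖ ^ 2 ≤ ∑ i, ∑ s, ‖Φ.d (b i s) (k + 1) w‖ ^ 2 :=
    le_trans (Finset.single_le_sum (f := fun s => ‖Φ.d (b i s) (k + 1) w‖ ^ 2)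
      (fun s _ => sq_nonneg _) (Finset.mem_univ s))
      (Finset.single_le_sum (f := fun i => ∑ s, ‖Φ.d (b i s) (k + 1) w‖ ^ 2)
        (fun i _ => Finset.sum_nonneg fun s _ => sq_nonneg _) (Finset.mem_univ i))
  have h7 : ‖Φ.d (b i s) (k + 1) w‖ ^ 2 = 0 := le_antisymm (h6.trans h5) (sq_nonneg _)
  exact norm_eq_zero.1 (pow_eq_zero_iff (two_ne_zero)|>.1 h7)

end Fock

end Pool.Agent.GHCFull
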