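import Pool.Agent.GHCFull.S1b

/-!
# Orthogonal decompositions
-/

set_option autoImplicit false

universe u

namespace Pool.Agent.GHCFull

open Pool.Agent.OddRank

variable {H : Type u} [AddCommGroup H] [Module ℂ H] [FiniteDimensional ℂ H]

private theorem s1_neg {ψ : H →ₗ[ℂ] H →ₗ[ℂ] ℂ} (halt : ∀ x, ψ x x = 0) (x y : H) :
    ψ x y = -ψ y x := by
  have h := halt (x + y)
  simp only [map_add, LinearMap.add_apply, halt, zero_add, add_zero] at h
  rw [eq_neg_iff_add_eq_zero, add_comm]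
  exact h

/-- The orthogonal subspace. -/
private def s1perp (ψ : H →ₗ[ℂ] H →ₗ[ℂ] ℂ) (W : Submodule ℂ H) : Submodule ℂ H where
  carrier := {y | ∀ w ∈ W, ψ w y = 0}
  add_mem' := by
    intro a b ha hb w hw
    rw [map_add, ha w hw, hb w hw, add_zero]
  zero_mem' := by
    intro w _
    exact map_zero _
  smul_mem' := by
    intro c a ha w hw
    rw [map_smul, ha w hw, smul_zero]

private theorem mem_s1perp {ψ : H →ₗ[ℂ] H →ₗ[ℂ] ℂ} {W : Submodule ℂ H} {y : H} :
    y ∈ s1perp ψ W ↔ ∀ w ∈ W, ψ w y = 0 := Iff.rfl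

private theorem s1_split {ψ : H →ₗ[ℂ] H →ₗ[ℂ] ℂ} (halt : ∀ x, ψ x x = 0)
    {W : Submodule ℂ H} (hW : NdOn ψ W) (y : H) : ∃ w0 ∈ W, y - w0 ∈ s1perp ψ W := by
  let T : W →ₗ[ℂ] Module.Dual ℂ W := ψ.flip.domRestrict₁₂ W W
  have hT : ∀ a b : W, T a b = ψ b a := fun a b => rfl
  have hinj : Function.Injective T := by
    rw [← LinearMap.ker_eq_bot, eq_bot_iff]
    intro a ha
    rw [LinearMap.mem_ker] at ha
    rw [Submodule.mem_bot]
    apply Subtype.ext
    refine hW a a.2 fun b hb => ?_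
    have h1 : T a ⟨b, hb⟩ = 0 := by rw [ha]; rfl
    rw [hT] at h1
    rw [s1_neg halt, h1, neg_zero]
  have hsurj : Function.Surjective T :=
    (LinearMap.injective_iff_surjective_of_finrank_eq_finrank
      (Subspace.dual_finrank_eq (K := ℂ) (V := W)).symm).1 hinj
  obtain ⟨w0, hw0⟩ := hsurj ((ψ.flip y).comp W.subtype)
  refine ⟨w0, w0.2, fun w hw => ?_⟩
  have h1 : T w0 ⟨w, hw⟩ = ((ψ.flip y).comp W.subtype) ⟨w, hw⟩ := by rw [hw0]
  rw [hT] at h1
  have h2 : ψ w w0 = ψ w y := h1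
  rw [map_sub, h2, sub_self]

private theorem s1_main {ψ : H →ₗ[ℂ] H →ₗ[ℂ] ℂ} (halt : ∀ x, ψ x x = 0)
    {G : Set (Module.End ℂ H)} (hψ : ∀ e ∈ G, ∀ x y, ψ (e x) y + ψ x (e y) = ψ x y)
    (hss : Semisimple G) (hform : ∀ W, Irreducible G W → ∃ φ, FormOn G W φ) (n : ℕ) :
    ∀ Y : Submodule ℂ H, Module.finrank ℂ Y = n → Stable G Y → NdOn ψ Y →
    ∃ (r : ℕ) (U : Fin r → Submodule ℂ H), (∀ s, Irreducible G (U s)) ∧ (∀ s, NdOn ψ (U s)) ∧
      (∀ s s', s ≠ s' → ∀ x ∈ U s, ∀ y ∈ U s', ψ x y = 0) ∧ ⨆ s, U s = Y := by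
  induction n using Nat.strong_induction_on with
  | _ n ih =>
    intro Y hn hY hnd
    by_cases h0 : Y = ⊥
    · refine ⟨0, Fin.elim0, fun s => s.elim0, fun s => s.elim0, fun s => s.elim0, ?_⟩
      rw [h0, iSup_of_empty]
    obtain ⟨W, hWY, hW, hWnd⟩ := exists_nd_irr halt hψ hss hform hY hnd h0
    set Y' : Submodule ℂ H := Y ⊓ s1perp ψ W with hY'
    have hst : Stable G Y' := by
      intro e he y hy
      refine ⟨hY e he y hy.1, fun w hw => ?_⟩
      have h1 := hψ e he w y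
      rw [hy.2 w hw, hy.2 (e w) (hW.1 e he w hw), zero_add] at h1
      exact h1
    have hlt : Y' < Y := by
      refine lt_of_le_of_ne inf_le_left fun heq => hW.2.1 ?_
      rw [eq_bot_iff]
      intro x hx
      have h1 : x ∈ Y' := by rw [heq]; exact hWY hx
      rw [Submodule.mem_bot]
      refine hWnd x hx fun y hy => ?_
      rw [s1_neg halt, h1.2 y hy, neg_zero]
    have hsup : W ⊔ Y' = Y := by
      refine le_antisymm (sup_le hWY inf_le_left) fun y hy => ?_
      obtain ⟨w0, hw0, h1⟩ := s1_split halt hWnd y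
      exact Submodule.mem_sup.2 ⟨w0, hw0, y - w0, ⟨Y.sub_mem hy (hWY hw0), h1⟩, by abel⟩
    have hnd' : NdOn ψ Y' := by
      intro x hx hxy
      refine hnd x hx.1 fun z hz => ?_
      rw [← hsup] at hz
      obtain ⟨w, hw, y, hy, rfl⟩ := Submodule.mem_sup.1 hz
      rw [map_add, hxy y hy, add_zero, s1_neg halt, hx.2 w hw, neg_zero]
    obtain ⟨r, U, h1, h2, h3, h4⟩ := ih (Module.finrank ℂ Y')
      (by rw [← hn]; exact Submodule.finrank_lt_finrank_of_lt hlt) Y' rfl hst hnd'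
    have hU : ∀ s, U s ≤ Y' := fun s => by rw [← h4]; exact le_iSup U s
    refine ⟨r + 1, Fin.cons W U, ?_, ?_, ?_, ?_⟩
    · intro s
      refine Fin.cases ?_ (fun s => ?_) s
      · rw [Fin.cons_zero]; exact hW
      · rw [Fin.cons_succ]; exact h1 s
    · intro s
      refine Fin.cases ?_ (fun s => ?_) s
      · rw [Fin.cons_zero]; exact hWnd
      · rw [Fin.cons_succ]; exact h2 s
    · intro s s'
      refine Fin.cases ?_ (fun s => ?_) s
      · refine Fin.cases ?_ (fun s' => ?_) s'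
        · intro h; exact absurd rfl h
        · intro _ x hx y hy
          rw [Fin.cons_zero] at hx
          rw [Fin.cons_succ] at hy
          exact (hU s' hy).2 x hx
      · refine Fin.cases ?_ (fun s' => ?_) s'
        · intro _ x hx y hy
          rw [Fin.cons_zero] at hy
          rw [Fin.cons_succ] at hx
          rw [s1_neg halt, (hU s hx).2 y hy, neg_zero]
        · intro h x hx y hy
          rw [Fin.cons_succ] at hx hy
          exact h3 s s' (fun h' => h (by rw [h'])) x hx y hy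
    · refine le_antisymm (iSup_le fun s => ?_) ?_
      · refine Fin.cases ?_ (fun s => ?_) s
        · rw [Fin.cons_zero]; exact hWY
        · rw [Fin.cons_succ]; exact (hU s).trans inf_le_left
      · conv_lhs => rw [← hsup, ← h4]
        refine sup_le ?_ (iSup_le fun s => ?_)
        · have h5 := le_iSup (Fin.cons W U : Fin (r + 1) → Submodule ℂ H) 0
          rwa [Fin.cons_zero] at h5
        · have h5 := le_iSup (Fin.cons W U : Fin (r + 1) → Submodule ℂ H) s.succ
          rwa [Fin.cons_succ] at h5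

/-- Decomposition into an orthogonal sum of nondegenerate irreducible subspaces. -/
theorem exists_orth {ψ : H →ₗ[ℂ] H →ₗ[ℂ] ℂ} (halt : ∀ x, ψ x x = 0)
    {G : Set (Module.End ℂ H)} (hψ : ∀ e ∈ G, ∀ x y, ψ (e x) y + ψ x (e y) = ψ x y)
    (hss : Semisimple G) (hform : ∀ W, Irreducible G W → ∃ φ, FormOn G W φ)
    (hnd : NdOn ψ ⊤) :
    ∃ (r : ℕ) (U : Fin r → Submodule ℂ H), (∀ s, Irreducible G (U s)) ∧ (∀ s, NdOn ψ (U s)) ∧
      (∀ s s', s ≠ s' → ∀ x ∈ U s, ∀ y ∈ U s', ψ x y = 0) ∧ ⨆ s, U s = ⊤ :=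
  s1_main halt hψ hss hform _ ⊤ rfl (fun _ _ _ _ => Submodule.mem_top) hnd

end Pool.Agent.GHCFull
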