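import Pool.Agent.OddRank.Commutant

/-!
# Uniqueness of invariant forms
-/

set_option autoImplicit false

universe u

namespace Pool.Agent.GHCFull

open Pool.Agent.OddRank

variable {H : Type u} [AddCommGroup H] [Module ℂ H] [FiniteDimensional ℂ H]

/-- The form is nondegenerate on the subspace. -/
def NdOn (ψ : H →ₗ[ℂ] H →ₗ[ℂ] ℂ) (U : Submodule ℂ H) : Prop :=
  ∀ x ∈ U, (∀ y ∈ U, ψ x y = 0) → x = 0

/-- The restriction of a form to a subspace. -/
private noncomputable def restr (φ : H →ₗ[ℂ] H →ₗ[ℂ] ℂ) (U : Submodule ℂ H) :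
    U →ₗ[ℂ] (U →ₗ[ℂ] ℂ) :=
  (LinearMap.lcomp ℂ ℂ U.subtype) ∘ₗ φ ∘ₗ U.subtype

private theorem restr_apply (φ : H →ₗ[ℂ] H →ₗ[ℂ] ℂ) (U : Submodule ℂ H) (x y : U) :
    restr φ U x y = φ x y := rfl

/-- Two invariant forms on an irreducible subspace, the first one nondegenerate, are
proportional. -/
theorem form_unique {G : Set (Module.End ℂ H)} {U : Submodule ℂ H} (hU : Irreducible G U)
    {φ φ' : H →ₗ[ℂ] H →ₗ[ℂ] ℂ} (hnd : NdOn φ U)
    (h : ∀ e ∈ G, ∀ x ∈ U, ∀ y ∈ U, φ (e x) y + φ x (e y) = φ x y)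
    (h' : ∀ e ∈ G, ∀ x ∈ U, ∀ y ∈ U, φ' (e x) y + φ' x (e y) = φ' x y) :
    ∃ c : ℂ, ∀ x ∈ U, ∀ y ∈ U, φ' x y = c * φ x y := by
  have hinj : Function.Injective (restr φ U) := by
    rw [injective_iff_map_eq_zero]
    intro x hx
    apply Subtype.ext
    refine hnd x x.2 fun y hy => ?_
    have := LinearMap.congr_fun hx ⟨y, hy⟩
    rwa [restr_apply] at this
  have hfin : Module.finrank ℂ U = Module.finrank ℂ (U →ₗ[ℂ] ℂ) :=
    (Subspace.dual_finrank_eq (K := ℂ) (V := U)).symm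
  have hsurj : Function.Surjective (restr φ U) :=
    (LinearMap.injective_iff_surjective_of_finrank_eq_finrank hfin).1 hinj
  set B := LinearEquiv.ofBijective (restr φ U) ⟨hinj, hsurj⟩ with hB
  set A : Module.End ℂ U := B.symm.toLinearMap ∘ₗ restr φ' U with hA
  have hAφ : ∀ x y : U, φ (A x) y = φ' x y := by
    intro x y
    have h1 : restr φ U (A x) = restr φ' U x := by
      change B (B.symm (restr φ' U x)) = _
      exact B.apply_symm_apply _
    rw [← restr_apply, h1, restr_apply]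
  haveI : Nontrivial U := Submodule.nontrivial_iff_ne_bot.2 hU.2.1
  obtain ⟨c, hc⟩ := Module.End.exists_eigenvalue A
  obtain ⟨v, hv⟩ := hc.exists_hasEigenvector
  set E : Submodule ℂ H := 
    { carrier := {x | x ∈ U ∧ ∀ y ∈ U, φ' x y = c * φ x y}
      add_mem' := by
        rintro a b ⟨ha, ha'⟩ ⟨hb, hb'⟩
        refine ⟨U.add_mem ha hb, fun y hy => ?_⟩
        rw [map_add, map_add, LinearMap.add_apply, LinearMap.add_apply, ha' y hy, hb' y hy]
        ring
      zero_mem' := ⟨U.zero_mem, fun y _ => by simp⟩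
      smul_mem' := by
        rintro a b ⟨hb, hb'⟩
        refine ⟨U.smul_mem a hb, fun y hy => ?_⟩
        rw [map_smul, map_smul, LinearMap.smul_apply, LinearMap.smul_apply, hb' y hy,
          smul_eq_mul, smul_eq_mul]
        ring } with hE
  have hmem : ∀ x, x ∈ E ↔ x ∈ U ∧ ∀ y ∈ U, φ' x y = c * φ x y := fun x => Iff.rfl
  have hst : Stable G E := by
    intro e he x hx
    rw [hmem] at hx ⊢
    refine ⟨hU.1 e he x hx.1, fun y hy => ?_⟩
    have h1 := h e he x hx.1 y hy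
    have h2 := h' e he x hx.1 y hy
    have h3 := hx.2 y hy
    have h4 := hx.2 (e y) (hU.1 e he y hy)
    linear_combination h2 - h4 + h3 - c * h1
  have hvE : (v : H) ∈ E := by
    rw [hmem]
    refine ⟨v.2, fun y hy => ?_⟩
    have h1 := hAφ v ⟨y, hy⟩
    rw [hv.apply_eq_smul] at h1
    rw [← h1, Submodule.coe_smul, map_smul, LinearMap.smul_apply, smul_eq_mul]
  rcases hU.2.2 E hst (fun x hx => ((hmem x).1 hx).1) with h0 | h0
  · exfalso
    rw [h0, Submodule.mem_bot] at hvE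
    exact hv.2 (Subtype.ext hvE)
  · refine ⟨c, fun x hx y hy => ?_⟩
    rw [← h0] at hx
    exact ((hmem x).1 hx).2 y hy

end Pool.Agent.GHCFull
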