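import Pool.Agent.GHCFull.S1a

/-!
# Nondegenerate irreducible subspaces
-/

set_option autoImplicit false
set_option linter.unusedSectionVars false

universe u

namespace Pool.Agent.GHCFull

open Pool.Agent.OddRank

variable {H : Type u} [AddCommGroup H] [Module ℂ H] [FiniteDimensional ℂ H]

/-- On an irreducible subspace the form is nondegenerate or zero. -/
private theorem nd_or_zero {ψ : H →ₗ[ℂ] H →ₗ[ℂ] ℂ}
    {G : Set (Module.End ℂ H)} (hψ : ∀ e ∈ G, ∀ x y, ψ (e x) y + ψ x (e y) = ψ x y)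
    {W : Submodule ℂ H} (hW : Irreducible G W) :
    NdOn ψ W ∨ ∀ x ∈ W, ∀ y ∈ W, ψ x y = 0 := by
  let K : Submodule ℂ H :=
    { carrier := {x | x ∈ W ∧ ∀ y ∈ W, ψ x y = 0}
      add_mem' := by
        rintro a b ⟨ha, ha'⟩ ⟨hb, hb'⟩
        refine ⟨W.add_mem ha hb, fun y hy => ?_⟩
        rw [map_add, LinearMap.add_apply, ha' y hy, hb' y hy, add_zero]
      zero_mem' := ⟨W.zero_mem, fun y _ => by rw [map_zero, LinearMap.zero_apply]⟩
      smul_mem' := by
        rintro c a ⟨ha, ha'⟩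
        refine ⟨W.smul_mem c ha, fun y hy => ?_⟩
        rw [map_smul, LinearMap.smul_apply, ha' y hy, smul_zero] }
  have hK : Stable G K := by
    rintro e he x ⟨hx, hx'⟩
    refine ⟨hW.1 e he x hx, fun y hy => ?_⟩
    have h := hψ e he x y
    rw [hx' y hy, hx' (e y) (hW.1 e he y hy), add_zero] at h
    exact h
  rcases hW.2.2 K hK (fun x hx => hx.1) with h | h
  · left
    intro x hx hx'
    have : x ∈ K := ⟨hx, hx'⟩
    rw [h] at this
    exact (Submodule.mem_bot ℂ).1 this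
  · right
    intro x hx y hy
    have : x ∈ K := by rw [h]; exact hx
    exact this.2 y hy

/-- A linear image of an irreducible subspace under an injective equivariant map. -/
private theorem irr_map {G : Set (Module.End ℂ H)} {W : Submodule ℂ H} (hW : Irreducible G W)
    (f : W →ₗ[ℂ] H) (hinj : Function.Injective f)
    (hf : ∀ e ∈ G, ∀ u v : W, (v : H) = e u → f v = e (f u)) :
    Irreducible G (LinearMap.range f) := by
  refine ⟨?_, ?_, ?_⟩
  · rintro e he _ ⟨u, rfl⟩
    exact ⟨⟨e u, hW.1 e he u u.2⟩, hf e he u _ rfl⟩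
  · intro h
    apply hW.2.1
    rw [eq_bot_iff]
    intro x hx
    have h1 : f ⟨x, hx⟩ ∈ LinearMap.range f := ⟨_, rfl⟩
    rw [h, Submodule.mem_bot] at h1
    have h2 := hinj (h1.trans (map_zero f).symm)
    exact (Submodule.mem_bot ℂ).2 (congrArg Subtype.val h2)
  · intro U' hU' hle
    have hst : Stable G ((U'.comap f).map W.subtype) := by
      rintro e he _ ⟨u, hu, rfl⟩
      refine ⟨⟨e u, hW.1 e he u u.2⟩, ?_, rfl⟩
      rw [SetLike.mem_coe, Submodule.mem_comap, hf e he u _ rfl]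
      exact hU' e he _ hu
    rcases hW.2.2 _ hst (Submodule.map_subtype_le _ _) with h | h
    · left
      rw [eq_bot_iff]
      intro x hx
      obtain ⟨u, rfl⟩ := hle hx
      have h1 : (u : H) ∈ (U'.comap f).map W.subtype := ⟨u, hx, rfl⟩
      rw [h, Submodule.mem_bot] at h1
      have h2 : u = 0 := Subtype.ext h1
      rw [h2, map_zero]
      exact Submodule.zero_mem _
    · right
      apply le_antisymm hle
      rintro _ ⟨u, rfl⟩
      have h1 : (u : H) ∈ (U'.comap f).map W.subtype := by rw [h]; exact u.2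
      obtain ⟨u', hu', h2⟩ := h1
      have h3 : u' = u := Subtype.ext h2
      rw [← h3]
      exact hu'

/-- The map `ρ` with `ψ w w' = φ w (ρ w')`. -/
private theorem exists_rho {ψ φ : H →ₗ[ℂ] H →ₗ[ℂ] ℂ} {W : Submodule ℂ H}
    (hφ : ∀ x ∈ W, φ x x = 0) (hnd : ∀ x ∈ W, (∀ y ∈ W, φ x y = 0) → x = 0) :
    ∃ ρ : H →ₗ[ℂ] W, ∀ w ∈ W, ∀ x, ψ w x = φ w (ρ x) := by
  have hskew : ∀ x ∈ W, ∀ y ∈ W, φ x y = - φ y x := by
    intro x hx y hy
    have h := hφ (x + y) (W.add_mem hx hy)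
    simp only [map_add, LinearMap.add_apply, hφ x hx, hφ y hy] at h
    linear_combination h
  let A : W →ₗ[ℂ] Module.Dual ℂ W := (φ.flip.comp W.subtype).compr₂ (LinearMap.id) |>.flip.comp
    W.subtype |>.flip
  have hA : ∀ (x y : W), A x y = φ y x := fun x y => rfl
  have hAinj : Function.Injective A := by
    rw [← LinearMap.ker_eq_bot, eq_bot_iff]
    intro x hx
    rw [LinearMap.mem_ker] at hx
    rw [Submodule.mem_bot]
    apply Subtype.ext
    apply hnd x x.2
    intro y hy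
    have h := LinearMap.congr_fun hx ⟨y, hy⟩
    rw [hA, LinearMap.zero_apply] at h
    rw [hskew x x.2 y hy, h, neg_zero]
  let E : W ≃ₗ[ℂ] Module.Dual ℂ W :=
    LinearEquiv.ofInjectiveOfFinrankEq A hAinj (Subspace.dual_finrank_eq).symm
  let B : H →ₗ[ℂ] Module.Dual ℂ W := (ψ.comp W.subtype).flip
  have hB : ∀ (x : H) (w : W), B x w = ψ w x := fun x w => rfl
  refine ⟨E.symm.toLinearMap.comp B, fun w hw x => ?_⟩
  have h1 : A (E.symm (B x)) = B x := E.apply_symm_apply (B x)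
  have h2 := LinearMap.congr_fun h1 ⟨w, hw⟩
  rw [hA, hB] at h2
  exact h2.symm

/-- A nondegenerate stable subspace contains a nondegenerate irreducible subspace. -/
theorem exists_nd_irr {ψ : H →ₗ[ℂ] H →ₗ[ℂ] ℂ} (halt : ∀ x, ψ x x = 0)
    {G : Set (Module.End ℂ H)} (hψ : ∀ e ∈ G, ∀ x y, ψ (e x) y + ψ x (e y) = ψ x y)
    (hss : Semisimple G) (hform : ∀ W, Irreducible G W → ∃ φ, FormOn G W φ)
    {Y : Submodule ℂ H} (hY : Stable G Y) (hnd : NdOn ψ Y) (h0 : Y ≠ ⊥) :
    ∃ W ≤ Y, Irreducible G W ∧ NdOn ψ W := by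
  by_contra hcon
  have hzero : ∀ W ≤ Y, Irreducible G W → ∀ x ∈ W, ∀ y ∈ W, ψ x y = 0 := by
    intro W hWY hW
    rcases nd_or_zero hψ hW with h | h
    · exact absurd ⟨W, hWY, hW, h⟩ hcon
    · exact h
  have hskew : ∀ x y, ψ x y = - ψ y x := by
    intro x y
    have h := halt (x + y)
    simp only [map_add, LinearMap.add_apply, halt x, halt y] at h
    linear_combination h
  obtain ⟨W, hWY, hW⟩ := exists_irr hY h0
  obtain ⟨φ, hφa, hφn, hφm⟩ := hform W hW
  have hφskew : ∀ x ∈ W, ∀ y ∈ W, φ x y = - φ y x := by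
    intro x hx y hy
    have h := hφa (x + y) (W.add_mem hx hy)
    simp only [map_add, LinearMap.add_apply, hφa x hx, hφa y hy] at h
    linear_combination h
  -- the orthogonal of `W` in `Y`
  let Z : Submodule ℂ H :=
    { carrier := {y | y ∈ Y ∧ ∀ w ∈ W, ψ w y = 0}
      add_mem' := by
        rintro a b ⟨ha, ha'⟩ ⟨hb, hb'⟩
        refine ⟨Y.add_mem ha hb, fun y hy => ?_⟩
        rw [map_add, ha' y hy, hb' y hy, add_zero]
      zero_mem' := ⟨Y.zero_mem, fun y _ => by rw [map_zero]⟩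
      smul_mem' := by
        rintro c a ⟨ha, ha'⟩
        refine ⟨Y.smul_mem c ha, fun y hy => ?_⟩
        rw [map_smul, ha' y hy, smul_zero] }
  have hZ : Stable G Z := by
    rintro e he y ⟨hy, hy'⟩
    refine ⟨hY e he y hy, fun w hw => ?_⟩
    have h := hψ e he w y
    rw [hy' w hw, hy' (e w) (hW.1 e he w hw), zero_add] at h
    exact h
  have hZY : Z ≤ Y := fun y hy => hy.1
  have hWZ : W ≤ Z := fun w hw => ⟨hWY hw, fun w' hw' => hzero W hWY hW w' hw' w hw⟩
  obtain ⟨U, hU, hc⟩ := hss Z hZ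
  have hC : Stable G (Y ⊓ U) := hY.inf hU
  have hC0 : Y ⊓ U ≠ ⊥ := by
    intro h
    have h1 : Y ≤ Z := by
      intro y hy
      have h2 : y ∈ Z ⊔ U := by rw [hc.sup_eq_top]; exact Submodule.mem_top
      obtain ⟨z, hz, u, hu, rfl⟩ := Submodule.mem_sup.1 h2
      have h3 : u ∈ Y ⊓ U := by
        refine ⟨?_, hu⟩
        have := Y.sub_mem hy (hZY hz)
        rwa [add_sub_cancel_left] at this
      rw [h, Submodule.mem_bot] at h3
      rw [h3, add_zero]
      exact hz
    apply hW.2.1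
    rw [eq_bot_iff]
    intro w hw
    rw [Submodule.mem_bot]
    exact hnd w (hWY hw) fun y hy => (h1 hy).2 w hw
  obtain ⟨W', hW'C, hW'⟩ := exists_irr hC hC0
  have hW'Y : W' ≤ Y := hW'C.trans inf_le_left
  have hdis : ∀ x ∈ W', x ∈ Z → x = 0 := by
    intro x hx hxZ
    have h : x ∈ Z ⊓ U := ⟨hxZ, (hW'C hx).2⟩
    rw [hc.inf_eq_bot, Submodule.mem_bot] at h
    exact h
  obtain ⟨ρ, hρ⟩ := exists_rho (ψ := ψ) hφa hφn
  let r : W' →ₗ[ℂ] W := ρ.comp W'.subtype
  have hr : ∀ w ∈ W, ∀ x : W', ψ w x = φ w (r x) := fun w hw x => hρ w hw x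
  have hequiv : OddRank.Equiv G r := by
    intro e he u v huv
    rw [← sub_eq_zero]
    have hmem : (r v : H) - e (r u) ∈ W := W.sub_mem (r v).2 (hW.1 e he _ (r u).2)
    apply hφn _ hmem
    intro w hw
    rw [hφskew _ hmem w hw, neg_eq_zero, map_sub]
    have h1 := hr w hw v
    have h2 := hr w hw u
    have h3 := hr (e w) (hW.1 e he w hw) u
    have h4 := hφm e he w hw (r u) (r u).2
    have h5 := hψ e he w u
    rw [huv] at h1
    linear_combination -h1 + h2 - h3 + h5 - h4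
  have hr0 : r ≠ 0 := by
    intro h
    apply hW'.2.1
    rw [eq_bot_iff]
    intro x hx
    rw [Submodule.mem_bot]
    apply hdis x hx
    refine ⟨hW'Y hx, fun w hw => ?_⟩
    have := hr w hw ⟨x, hx⟩
    rw [h, LinearMap.zero_apply, ZeroMemClass.coe_zero, map_zero] at this
    exact this
  let E : W' ≃ₗ[ℂ] W := LinearEquiv.ofBijective r (schur hW' hW hequiv hr0)
  have hE : ∀ x : W', E x = r x := fun x => rfl
  let f : W →ₗ[ℂ] H := W.subtype + W'.subtype.comp E.symm.toLinearMap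
  have hf : ∀ w : W, f w = (w : H) + (E.symm w : H) := fun w => rfl
  have hτ : ∀ w ∈ W, ∀ v : W, ψ w (E.symm v) = φ w v := by
    intro w hw v
    rw [hr w hw, ← hE, LinearEquiv.apply_symm_apply]
  have hform2 : ∀ w v : W, ψ (f w) (f v) = 2 * φ w v := by
    intro w v
    rw [hf, hf]
    simp only [map_add, LinearMap.add_apply]
    rw [hzero W hWY hW w w.2 v v.2, hτ w w.2 v, hskew (E.symm w : H) v, hτ v v.2 w,
      hzero W' hW'Y hW' _ (E.symm w).2 _ (E.symm v).2, hφskew v v.2 w w.2]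
    ring
  have hndf : ∀ w : W, (∀ v : W, ψ (f w) (f v) = 0) → w = 0 := by
    intro w hw
    apply Subtype.ext
    apply hφn w w.2
    intro y hy
    have h := hw ⟨y, hy⟩
    rw [hform2] at h
    rcases mul_eq_zero.1 h with h | h
    · norm_num at h
    · exact h
  have hinj : Function.Injective f := by
    rw [← LinearMap.ker_eq_bot, eq_bot_iff]
    intro w hw
    rw [LinearMap.mem_ker] at hw
    rw [Submodule.mem_bot]
    apply hndf
    intro v
    rw [hw, map_zero, LinearMap.zero_apply]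
  apply hcon
  refine ⟨LinearMap.range f, ?_, irr_map hW f hinj ?_, ?_⟩
  · rintro _ ⟨w, rfl⟩
    rw [hf]
    exact Y.add_mem (hWY w.2) (hW'Y (E.symm w).2)
  · intro e he u v huv
    rw [hf, hf, map_add, huv]
    congr 1
    have h1 : E ⟨e (E.symm u), hW'.1 e he _ (E.symm u).2⟩ = v := by
      apply Subtype.ext
      rw [hE, hequiv e he (E.symm u) _ rfl, ← hE, LinearEquiv.apply_symm_apply, huv]
    rw [← h1, LinearEquiv.symm_apply_apply]
  · rintro _ ⟨w, rfl⟩ h
    rw [hndf w fun v => h _ ⟨v, rfl⟩, map_zero]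

end Pool.Agent.GHCFull
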